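import Pool.Agent.THS.StmtsB

/-!
THS, block L: proof of the local lemma `LocStatement` (StmtsB). All proofs are in the docstrings.
`v` is a nonarchimedean absolute value with `v 2 = 1`; congruences are inequalities `v _ <= ρ^s`.
-/

namespace Pool.Agent.THS

open scoped BigOperators

/-- Modulo `ε`, `F(i,j)` is a sum of `c` products of integral functions of `i` and of `j`. -/
def Short {K : Type} [Field K] (v : AbsoluteValue K ℝ) (c : ℕ) (ε : ℝ) (F : ℤ → ℤ → K) : Prop :=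
  ∃ A B : Fin c → ℤ → K, (∀ s i, v (A s i) ≤ 1) ∧ (∀ s i, v (B s i) ≤ 1) ∧
    ∀ i j, v (F i j - ∑ s, A s i * B s j) ≤ ε

/-- The normalised sequences `w_a(k) = T_a(k)/(T_o(0) κ^(k^2))`. -/
noncomputable def wn {g : ℕ} {K : Type} [Field K] (T : ℤ → (Fin g → ZMod 2) → K)
    (o : Fin g → ZMod 2) (κ : K) (a : Fin g → ZMod 2) (k : ℤ) : K :=
  T k a / (T 0 o * κ ^ (k ^ 2))

/-- **Row SHM** (calculus). PROOF. (1) pad with zero functions. (2) put the families together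
(`Fin.append`). (3) multiply `A` by `y`. (4) `F F' - S S' = (F - S) F' + S (F' - S')` with
`S = sum A B`, `v S <= max (v F) ε <= δ`, so everything is `<= ε δ`; `S S'` is a sum of `c c'`
products (`Fin c × Fin c'`, `finProdFinEquiv`), the functions stay integral. (5) clear. -/
def ShmStatement : Prop :=
  ∀ (K : Type) [Field K] (v : AbsoluteValue K ℝ), IsNonarchimedean v →
    (∀ (c c' : ℕ) (ε ε' : ℝ) (F : ℤ → ℤ → K), c ≤ c' → ε ≤ ε' → Short v c ε F → Short v c' ε' F) ∧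
    (∀ (c c' : ℕ) (ε : ℝ) (F F' : ℤ → ℤ → K), Short v c ε F → Short v c' ε F' →
      Short v (c + c') ε (fun i j => F i j + F' i j)) ∧
    (∀ (c : ℕ) (ε : ℝ) (y : K) (F : ℤ → ℤ → K), 0 ≤ ε → v y ≤ 1 → Short v c ε F →
      Short v c ε (fun i j => y * F i j)) ∧
    (∀ (c c' : ℕ) (ε δ : ℝ) (F F' : ℤ → ℤ → K), 0 ≤ ε → ε ≤ δ → δ ≤ 1 →
      (∀ i j, v (F i j) ≤ δ) → (∀ i j, v (F' i j) ≤ δ) → Short v c ε F → Short v c' ε F' →
      Short v (c * c') (ε * δ) (fun i j => F i j * F' i j)) ∧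
    (∀ (c : ℕ) (ε : ℝ) (F : ℤ → ℤ → K) (p q : ℤ → ℤ), Short v c ε F →
      Short v c ε (fun i j => F (p i) (q j)))

/-- **Row TSC** (telescope; uses SHM). PROOF. `D(i,j) = h(i+j) + h(i-j)`.
`D(i+1,j) - D(i,j+1) = h(i-j+1) - h(i-j-1)`, so (SHM; replace `j` by `-j`) `h(i+j+1) - h(i+j-1)` has
length `2c`: `sum_p A_p(i) B_p(j)` modulo `ε`. For `j >= 0`:
`h(i+j) - h(i-j) = sum_(s<j) [h(i+m_s+1) - h(i+m_s-1)]`, `m_s = -j+2s+1`, which is
`sum_p A_p(i) C_p(j)` modulo `ε`, `C_p(j) = sum_(s<j) B_p(-j+2s+1)` (ultrametric inequality); for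
`j < 0` use `h(i+j) - h(i-j) = -(h(i-j) - h(i+j))`, `C_p(j) = - C_p(-j)`. Add `D`:
`2 h(i+j)` has length `3c`; multiply by `1/2`, `v (1/2) = 1`. -/
def TscStatement : Prop :=
  ∀ (K : Type) [Field K] (v : AbsoluteValue K ℝ) (c : ℕ) (ε : ℝ) (h : ℤ → K),
    IsNonarchimedean v → v 2 = 1 → 0 ≤ ε → Short v c ε (fun i j => h (i + j) + h (i - j)) →
    Short v (3 * c) ε (fun i j => h (i + j))

/-- **Row LES** (the length lemma; uses SHM, TSC). PROOF. `L = 0`: length 0, as `v (e k) <= 1`.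
Let `d = 1 - e`, `v (d k) <= ρ`. For `L >= 1` by induction: `d(i+j)` has length `c_L` modulo `ρ^L`,
`c_1 = 0`, `c_(L+1) = 3 (1 + n + c_L^2)`: `d(i+j) + d(i-j) = 1 - e(i+j) e(i-j) + d(i+j) d(i-j)`;
the first two terms have length `1 + n` exactly, the last one has length `c_L^2` modulo `ρ^L ρ`
(SHM (4) with `ε = ρ^L`, `δ = ρ`; for `d(i-j)` replace `j` by `-j`); then TSC. Finally
`e = 1 - d`: length `c_L + 1`. -/
def LesStatement : Prop :=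
  ∀ n L : ℕ, ∃ c : ℕ, ∀ (K : Type) [Field K] (v : AbsoluteValue K ℝ) (ρ : ℝ) (e : ℤ → K),
    IsNonarchimedean v → v 2 = 1 → 0 < ρ → ρ < 1 → (∀ k, v (e k - 1) ≤ ρ) →
    Short v n 0 (fun i j => e (i + j) * e (i - j)) → Short v c (ρ ^ L) (fun i j => e (i + j))

/-- **Row GEO** (inverse; uses SHM). PROOF. `d = 1 - e`, `v d <= ρ < 1`, so `v e = 1`, and
`e⁻¹ - sum_(s<L) d^s = d^L e⁻¹` has `v <= ρ^L`. `d(i+j)` has length `c + 1` modulo `ρ^L`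
(constant 1 minus `e`), `d^s` length `(c+1)^s` (SHM (4) with `δ = 1`), the sum the sum of these. -/
def GeoStatement : Prop :=
  ∀ c L : ℕ, ∃ c' : ℕ, ∀ (K : Type) [Field K] (v : AbsoluteValue K ℝ) (ρ : ℝ) (e : ℤ → K),
    IsNonarchimedean v → 0 < ρ → ρ < 1 → (∀ k, v (e k - 1) ≤ ρ) →
    Short v c (ρ ^ L) (fun i j => e (i + j)) → Short v c' (ρ ^ L) (fun i j => (e (i + j))⁻¹)

/-- **Row MXV** (integral decomposition of a rank one matrix). PROOF. `P = 0`: clear. Let `s` be the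
supremum of all `v (P i j)`, `0 < s <= 1`; choose `(k0,l0)` with `v (P k0 l0) > ρ s`. It is a
maximum: if `v (P i j) > v (P k0 l0)`, then `y = P k0 l0/P i j` has `v y < 1`, so `v y <= ρ` and
`v (P k0 l0) <= ρ s`. Put `A i = P i l0 / P k0 l0`, `B j = P k0 j`; then `v (A i) <= 1`,
`v (B j) <= 1` and `A i B j = P i j` by the hypothesis. -/
def MxvStatement : Prop :=
  ∀ (K : Type) [Field K] (v : AbsoluteValue K ℝ) (ρ : ℝ) (P : ℤ → ℤ → K), 0 < ρ → ρ < 1 →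
    (∀ y : K, v y < 1 → v y ≤ ρ) → (∀ i j, v (P i j) ≤ 1) →
    (∀ i j k l, P i j * P k l = P i l * P k j) → Short v 1 0 P

/-- **Row NRA** (the sequences are congruent to a constant; uses RQI). PROOF. Choose `o` with
`v (T 0 o) = |T 0|`. PC for `i` = a maximal coordinate of `T k` and `j = o` gives
`v (T k o) = |T k| > 0` for all `k`. Put `t k = T k o`, `κ = t 1/t 0`, `r_a(k) = T k a/t k`:
`v (r_a(k)) <= 1`, and `v (r_a(k) - r_a(0)) < 1` by PC, so `<= ρ`. Let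
`R_b(i,j) = RQ T 0 b i j/(t(i+j) t(i-j)) = sum_c sgn b c r_c(i+j) r_c(i-j)`; modulo `ρ` it is
`R_b(0,0)`. By RQI (`a = 0`, `d = o`): `sum_b sgn b o R_b(0,0) = 2^g` (`r_o = 1`), so some `b` has
`v (R_b(0,0)) = 1`; fix it, then `R_b(i,j)/R_b(0,0)` is 1 modulo `ρ`. `rk1` for `(i,j)`, `(0,0)`:
`t(i+j) t(i-j) R(i,j) t(0)^2 R(0,0) = t(i)^2 R(i,0) t(j) t(-j) R(0,j)`, `t(-j) = t(j)`. So
`t'(k) = wn T o κ o k` has `t'(0) = t'(1) = 1`, `t'(-k) = t'(k)`,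
`t'(i+j) t'(i-j) = t'(i)^2 t'(j)^2 η`, `η = 1` modulo `ρ` (`(i+j)^2 + (i-j)^2 = 2i^2 + 2j^2`).
With `j = 1` by induction `t'(k) = 1` modulo `ρ` for `k >= 0`, then for all `k`. Next
`v (wn T o κ a k) = v (r_a(k)) v (t'(k)) <= 1`. Finally `t(N) = α t(0)`, `t(1+N) = α β t(1)` give
`t'(N)/t'(N+1) = κ^(2N)/β`. -/
def NraStatement : Prop :=
  ∀ (K : Type) [Field K] (v : AbsoluteValue K ℝ) (ρ : ℝ) (g N : ℕ) (α β : K)
    (T : ℤ → (Fin g → ZMod 2) → K) (x : ℤ → (Fin g → ZMod 2) × (Fin g → ZMod 2) → K),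
    IsNonarchimedean v → v 2 = 1 → 0 < ρ → ρ < 1 → (∀ y : K, v y < 1 → v y ≤ ρ) →
    TSeq K g N α β T x → (∀ k, PC v (T k) (T 0)) →
    ∃ (o : Fin g → ZMod 2) (κ : K), κ ≠ 0 ∧ T 0 o ≠ 0 ∧ v (T 0 o) = nv v (T 0) ∧
      (∀ a k, v (wn T o κ a k) ≤ 1) ∧ (∀ k, v (wn T o κ o k - 1) ≤ ρ) ∧
      v (κ ^ (2 * N) / β - 1) ≤ ρ

/-- **Row NRB** (exact products; uses RQI, MXV). PROOF. `a' = a + o`. For every `b` the function
`P_b(i,j) = sum_c sgn b (a'+c) * (w_(a'+c)(i+j) * w_c(i-j)) = RQ T a' b i j/(T_o(0)^2 κ^(2i^2+2j^2))`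
satisfies `P(i,j) P(k,l) = P(i,l) P(k,j)` (rk1; the powers of `κ` agree) and `v (P_b) <= 1`, so MXV
gives `P_b(i,j) = A_b(i) B_b(j)`. RQI for `a'` and `d = o` (`a' + o = a`):
`2^g w_a(i+j) w_o(i-j) = sum_b sgn b a P_b(i,j)`; divide by `2^g` (`v = 1`); the index set of the `b`
has `2^g` elements. -/
def NrbStatement : Prop :=
  ∀ (K : Type) [Field K] (v : AbsoluteValue K ℝ) (ρ : ℝ) (g N : ℕ) (α β : K)
    (T : ℤ → (Fin g → ZMod 2) → K) (x : ℤ → (Fin g → ZMod 2) × (Fin g → ZMod 2) → K)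
    (o : Fin g → ZMod 2) (κ : K),
    IsNonarchimedean v → v 2 = 1 → 0 < ρ → ρ < 1 → (∀ y : K, v y < 1 → v y ≤ ρ) →
    TSeq K g N α β T x → κ ≠ 0 → T 0 o ≠ 0 → (∀ a k, v (wn T o κ a k) ≤ 1) →
    ∀ a, Short v (2 ^ g) 0 (fun i j => wn T o κ a (i + j) * wn T o κ o (i - j))

/-- **Row LCF** (uses NRA, NRB, LES, GEO, SHM; proves `LocStatement`). PROOF. `o, κ` from NRA,
`w_a = wn T o κ a`, `t = (T 0 o)^5`. (a) NRB for `a = o` and LES with `n = 2^g`: `w_o(i+j)` has length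
`c1` modulo `ρ^L`; GEO, and `j -> -j`: `w_o(i-j)⁻¹` has length `c2`. (b)
`w_a(i+j) = [w_a(i+j) w_o(i-j)] w_o(i-j)⁻¹` has length `2^g c2` modulo `ρ^L` (SHM (4), `δ = 1`, SHM
(1) for the exact factor). (c) `e(k) = ϖ^(k^2)`, `ϖ = κ^(2N)/β`: `v (ϖ^m - 1) <= ρ` for `m >= 0`;
`e(i+j) e(i-j) = ϖ^(2i^2) ϖ^(2j^2)`, LES with `n = 1`: length `c3`. (d) Dilations: SHM (5) with
`p i = u i`, `q j = u j`: `w_a(u (i+j))` has the same length. (e)
`ff(i+j) = β^(-(i+j)^2) prod_l T_(a l)(u_l(i+j)) = t ϖ^((i+j)^2) prod_l w_(a l)(u_l (i+j))`, because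
`sum u_l^2 = 2N`. So `ff(i+j)/t` has length `c3 (2^g c2)^5` modulo `ρ^L` (SHM (4), `δ = 1`; all
factors are integral); multiply by `t`, `v t = |T 0|^5`. -/
def LcfStatement : Prop := LocStatement

end Pool.Agent.THS
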