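import Pool.Agent.THS.StmtsZ

/-!
THS, block B (pieces (3) and (5) of note 3571): the periodic functions `ff`, small minors, product
formula, order of the shift. The only local input is `LocStatement`, the output of block A.
All proofs are in the docstrings.
-/

namespace Pool.Agent.THS

open scoped BigOperators

/-- `f(k) = beta^(-k^2) prod_l T_(a l)(u_l k)`. -/
noncomputable def ff {g : ℕ} {K : Type} [Field K] (β : K) (T : ℤ → (Fin g → ZMod 2) → K)
    (u : Fin 5 → ℕ) (a : Fin 5 → Fin g → ZMod 2) (k : ℤ) : K :=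
  β ^ (-(k ^ 2)) * ∏ l, T (u l * k) (a l)

/-- `N v`, the number of elements of the residue field, as a real number; `lN v = Real.log (qv v)`
by definition. -/
noncomputable def qv {K : Type} [Field K] [NumberField K] (v : NumberField.FinitePlace K) : ℝ :=
  (Ideal.absNorm v.maximalIdeal.asIdeal : ℝ)

/-- **LOC** (OUTPUT of block A, the local lemma (4) for the products `ff`): modulo `ρ^L` the matrix
`ff(i+j)` is a sum of `c` products of integral functions, `c = c(g,L)`. -/
def LocStatement : Prop :=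
  ∀ g L : ℕ, ∃ c : ℕ, ∀ (K : Type) [Field K] (v : AbsoluteValue K ℝ) (ρ : ℝ) (N : ℕ) (α β : K)
    (T : ℤ → (Fin g → ZMod 2) → K) (x : ℤ → (Fin g → ZMod 2) × (Fin g → ZMod 2) → K)
    (u : Fin 5 → ℕ) (a : Fin 5 → Fin g → ZMod 2),
    IsNonarchimedean v → v 2 = 1 → 0 < ρ → ρ < 1 → (∀ y : K, v y < 1 → v y ≤ ρ) →
    TSeq K g N α β T x → (∀ k, PC v (T k) (T 0)) → ∑ l, u l ^ 2 = 2 * N →
    ∃ (t : K) (A B : Fin c → ℤ → K), v t = nv v (T 0) ^ 5 ∧ (∀ s i, v (A s i) ≤ 1) ∧
      (∀ s i, v (B s i) ≤ 1) ∧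
      ∀ i j, v (ff β T u a (i + j) - t * ∑ s, A s i * B s j) ≤ ρ ^ L * nv v (T 0) ^ 5

/-- **Row LGR** (Lagrange). PROOF. `2 N - 1` is a sum of four squares (`Nat.sum_four_squares`). -/
def LgrStatement : Prop :=
  ∀ N : ℕ, 0 < N → ∃ u : Fin 5 → ℕ, u 0 = 1 ∧ ∑ l, u l ^ 2 = 2 * N

/-- **Row FPE** (exact period). PROOF. From `per`, by induction on `u`:
`T (k + u N) = α^u β^(u k) β^(N u(u-1)/2) T k`; with `k` replaced by `u k`:
`T (u (k + N)) = α^u β^(u^2 k + N u(u-1)/2) T (u k)`. Let `s = sum u_l`; `s = sum u_l^2 = 2N` mod 2,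
so `s` is even; the product over `l` of the factors is
`α^s β^(2 N k + N (2N - s)/2) = β^(N s/2 + 2 N k + N^2 - N s/2) = β^(2 N k + N^2)`, and
`β^(-(k+N)^2) = β^(-k^2) β^(-2 N k - N^2)`. (Halves: `s = 2 s'`, `α^s = (α^2)^s' = β^(N s')`, and
`sum_l u_l(u_l-1)/2 = N - s'`.) -/
def FpeStatement : Prop :=
  ∀ (K : Type) [Field K] (g N : ℕ) (α β : K) (T : ℤ → (Fin g → ZMod 2) → K)
    (x : ℤ → (Fin g → ZMod 2) × (Fin g → ZMod 2) → K) (u : Fin 5 → ℕ)
    (a : Fin 5 → Fin g → ZMod 2), NSeq K g N α β T x → ∑ l, u l ^ 2 = 2 * N →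
    ∀ k : ℤ, ff β T u a (k + N) = ff β T u a k

/-- **Row BDG** (bound of `ff`, one absolute value; uses PRB). PROOF. PRB with `F k = nv v (T k)`
(positive), `a = v α`, `b = v β`: `F k^(6N) <= C^(2N) F 0^(6N) b^(3 k^2)`. Apply it to `u_l k`
(`v (T (u_l k) (a l)) <= F (u_l k)`) and multiply: `v (prod_l ..)^(6N) <= C^(10N) F 0^(30N)
b^(3 k^2 sum u_l^2) = C^(10N) F 0^(30N) b^(6 N k^2)`; times `b^(-6 N k^2)`:
`(v (ff k)^3)^(2N) <= (C^5 F 0^15)^(2N)`; take the root (`2N > 0`). -/
def BdgStatement : Prop :=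
  ∀ (K : Type) [Field K] (v : AbsoluteValue K ℝ) (g N : ℕ) (α β : K)
    (T : ℤ → (Fin g → ZMod 2) → K) (x : ℤ → (Fin g → ZMod 2) × (Fin g → ZMod 2) → K)
    (u : Fin 5 → ℕ) (a : Fin 5 → Fin g → ZMod 2) (C : ℝ), 0 < C → NSeq K g N α β T x →
    ∑ l, u l ^ 2 = 2 * N → (∀ k, nv v (T k) ^ 4 ≤ C * nv v (T (2 * k)) * nv v (T 0) ^ 3) →
    ∀ k, v (ff β T u a k) ^ 3 ≤ C ^ 5 * nv v (T 0) ^ 15

/-- **Row FBD** (bound of `ff` at all places; uses LAR, LNA, BDG). PROOF. `dup` gives the hypothesis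
of LAR / LNA for `S = T k`, `D = T (2k)`, `Z = T 0`. Infinite: BDG with `C = 4^g` (`v 2 = 2`).
Finite: `C = (v 2^(2g))⁻¹` (`v 2 > 0`). -/
def FbdStatement : Prop :=
  ∀ (K : Type) [Field K] [NumberField K] (g N : ℕ) (α β : K) (T : ℤ → (Fin g → ZMod 2) → K)
    (x : ℤ → (Fin g → ZMod 2) × (Fin g → ZMod 2) → K) (u : Fin 5 → ℕ)
    (a : Fin 5 → Fin g → ZMod 2), NSeq K g N α β T x → ∑ l, u l ^ 2 = 2 * N → ∀ k,
    (∀ v : NumberField.InfinitePlace K,
      v.val (ff β T u a k) ^ 3 ≤ 4 ^ (5 * g) * nv v.val (T 0) ^ 15) ∧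
    (∀ v : NumberField.FinitePlace K,
      v.val 2 ^ (10 * g) * v.val (ff β T u a k) ^ 3 ≤ nv v.val (T 0) ^ 15)

/-- **Row DBD** (trivial determinant bounds). PROOF. Leibniz formula (`Matrix.det_apply`), signs
have `v = 1`, triangle inequality with `r!` terms, resp. ultrametric inequality. -/
def DbdStatement : Prop :=
  ∀ (K : Type) [Field K] (v : AbsoluteValue K ℝ) (r : ℕ) (M : Matrix (Fin r) (Fin r) K) (b : ℝ),
    (∀ i j, v (M i j) ≤ b) →
    v M.det ≤ r.factorial * b ^ r ∧ (IsNonarchimedean v → v M.det ≤ b ^ r)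

/-- **Row MNN** (a matrix of small length modulo `ε` has a small determinant). PROOF. If `t = 0`, all
entries are 0: clear (`r = 0`: `1 <= 1`; `r > 0`: det = 0). Else divide by `t`:
`M' = sum_s A_s(i) B_s(j) + E`, `v (E i j) <= ε`. Row `i` of `M'` is the sum of the `c` vectors
`A_s(i) • B_s` and of `E_i`. Expand the determinant multilinearly in the rows
(`MultilinearMap.map_sum` for `Option (Fin c)`, `Matrix.detRowAlternating`): a term is given by
`φ : Fin r -> Option (Fin c)`; if two rows use the same `s`, the rows are proportional and the term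
is 0; otherwise at most `c` rows are of type `B`, so at least `r - c` rows are rows of `E`, and every
product in the Leibniz formula is `<= ε^(number of E rows) <= ε^(r - c)`. Ultrametric inequality. -/
def MnnStatement : Prop :=
  ∀ (K : Type) [Field K] (v : AbsoluteValue K ℝ) (r c : ℕ) (M : Matrix (Fin r) (Fin r) K)
    (A B : Fin c → Fin r → K) (t : K) (ε : ℝ), IsNonarchimedean v → 0 ≤ ε → ε ≤ 1 →
    (∀ s i, v (A s i) ≤ 1) → (∀ s i, v (B s i) ≤ 1) →
    (∀ i j, v (M i j - t * ∑ s, A s i * B s j) ≤ ε * v t) →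
    v M.det ≤ v t ^ r * ε ^ (r - c)

/-- **Row QVR** (normalisation of finite places). PROOF. `NumberField.FinitePlace.norm_def` and
relatives: `v x = (N v)^(-ord_v x)`, so `v x < 1` implies `v x <= (N v)^(-1)`; `N v >= 2`. -/
def QvrStatement : Prop :=
  ∀ (K : Type) [Field K] [NumberField K] (v : NumberField.FinitePlace K),
    2 ≤ qv v ∧ ∀ y : K, v.val y < 1 → v.val y ≤ (qv v)⁻¹

/-- **Row DPF** (product formula for a determinant; uses HFS). PROOF. The product formula
(`NumberField.prod_abs_eq_one`) for `D^3`, `D <> 0`: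
`1 = prod_(v inf) v D^(3 mult) prod_(v fin) v D^3`. Multiply the hypotheses: the infinite places give
`C^([K : Q]) prod_(v inf) nv^(15 r mult)`, the finite places (outside `S`:
`v 2^(10 g r) v D^3 <= nv^(15 r)`; in `S`: the same times `qv^(-e)`); the product over the finite
places of `v 2` is `2^(-[K : Q])` (product formula for 2). Together
`prod_S qv^e <= (C 2^(10 g r))^[K : Q] H(Y)^(15 r)` (`NumberField.mulHeight_eq`). Finite products:
outside a finite set all factors are 1 (HFS; `v D = 1`, `v 2 = 1` almost everywhere), compare there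
with `Finset.prod_le_prod`. -/
def DpfStatement : Prop :=
  ∀ (K : Type) [Field K] [NumberField K] (ι : Type) [Finite ι] (Y : ι → K) (D : K) (m r e : ℕ)
    (C : ℝ) (S : Finset (NumberField.FinitePlace K)), Y ≠ 0 → D ≠ 0 → 0 ≤ C →
    (∀ v : NumberField.InfinitePlace K, v.val D ^ 3 ≤ C * nv v.val Y ^ (15 * r)) →
    (∀ v : NumberField.FinitePlace K, v.val 2 ^ m * v.val D ^ 3 ≤ nv v.val Y ^ (15 * r)) →
    (∀ v ∈ S, qv v ^ e * (v.val 2 ^ m * v.val D ^ 3) ≤ nv v.val Y ^ (15 * r)) →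
    ∏ v ∈ S, qv v ^ e ≤ (C * 2 ^ m) ^ Module.finrank ℚ K * Height.mulHeight Y ^ (15 * r)

/-- **Row MNV** (all minors vanish; uses LOC, FBD, DBD, MNN, QVR, DPF). PROOF. Let
`c = c(g, L)` of LOC, `r = 2 c + 2`. Suppose some minor `D = det (f (p i + q j))` is not 0. Infinite
places: DBD with `b = (4^(5g) nv^15)^(1/3)`, so `v D^3 <= (r!)^3 4^(5 g r) nv^(15 r)`. Finite places:
DBD with `b^3 = nv^15 / v 2^(10 g)`: `v 2^(10 g r) v D^3 <= nv^(15 r)`. `v` in `S`: LOC with
`ρ = (qv v)⁻¹` (QVR), restricted to `p i`, `q j`, and MNN with `ε = ρ^L`: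
`v D <= nv^(5 r) qv^(-L (r - c))`, `v 2 = 1`. DPF with `m = 10 g r`, `e = 3 L (r - c)`,
`C = (r!)^3 4^(5 g r)`: `e sum_S log qv <= [K : Q] (3 log r! + 20 g r log 2) + 15 r log H(T 0)`
`<= d (3 log r! + 20 g r log 2) + 15 r (σ sum_S log qv + C1)` (`C1` from the hypothesis). Since
`r - c >= r/2` and `L >= 10 σ + 2`: `e >= 3 L r/2 >= 15 σ r + 3 r`, hence
`3 r sum_S log qv <= d (3 log r! + 20 g r log 2) + 15 r C1`: this is excluded by `sum_S > S0`. -/
def MnvStatement : Prop :=
  ∀ (g d : ℕ) (σ C : ℝ), ∃ (r : ℕ) (S0 : ℝ), 0 < r ∧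
    ∀ (K : Type) [Field K] [NumberField K], Module.finrank ℚ K ≤ d →
    ∀ (N : ℕ) (α β : K) (T : ℤ → (Fin g → ZMod 2) → K)
      (x : ℤ → (Fin g → ZMod 2) × (Fin g → ZMod 2) → K), TSeq K g N α β T x →
    ∀ S : Finset (NumberField.FinitePlace K), (∀ v ∈ S, v 2 = 1) →
    (∀ v ∈ S, ∀ k, PC v.val (T k) (T 0)) →
    Real.log (Height.mulHeight (T 0)) ≤ σ * ∑ v ∈ S, lN v + C →
    S0 < ∑ v ∈ S, lN v →
    ∀ (u : Fin 5 → ℕ) (a : Fin 5 → Fin g → ZMod 2), ∑ l, u l ^ 2 = 2 * N →
    ∀ p q : Fin r → ℤ, (Matrix.of fun i j => ff β T u a (p i + q j)).det = 0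

/-- **Row EVB** (evaluation points). PROOF. Linearly independent functions `F_1..F_r` on a set `X`
have points `q_1..q_r` with `det F_i(q_j) <> 0`: the `K`-span of the vectors
`(F_1(q), .., F_r(q))`, `q` in `X`, is all of `K^r` (a linear form which kills it is a relation
between the `F_i`, hence 0), so there is a basis of `K^r` consisting of such vectors
(`exists_linearIndependent'`, or `Basis.ofSpan`-like; finite dimension), its matrix is
invertible. -/
def EvbStatement : Prop :=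
  ∀ (K X : Type) [Field K] (r : ℕ) (F : Fin r → X → K), LinearIndependent K F →
    ∃ q : Fin r → X, (Matrix.of fun i j => F i (q j)).det ≠ 0

/-- **Row TOT** (`n <= 2 φ(n)^2`). PROOF. `Nat.recOnPosPrimePosCoprime` for the stronger statement:
`n <= 2 φ(n)^2`, and `n <= φ(n)^2` if `n` is not 2 mod 4. Prime powers: `φ(p^k)^2 =
p^(2k-2) (p-1)^2 >= p^k` for `p >= 3` (`(p-1)^2 >= p`, `2k - 2 >= k - 1`) and for `p = 2, k >= 2`;
`φ(2) = 1`. Coprime products: `Nat.totient_mul`; at most one factor is 2 mod 4 (the other one is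
then odd); if `a b` is not 2 mod 4, and `a` is 2 mod 4, impossible, since `b` is odd. -/
def TotStatement : Prop := ∀ n : ℕ, 0 < n → n ≤ 2 * n.totient ^ 2

/-- **Row ROU** (order of an operator of finite order over a number field; uses TOT). PROOF. Let
`m = minpoly K S`, a divisor of `X^N - 1`, which is separable in characteristic 0, so `m` is
squarefree, a product of distinct irreducible `p_i`, each of degree `<= dim V < r` (`m` divides the
characteristic polynomial). Let `ζ` be a root of `p_i` in an algebraic closure; it is a primitive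
`n`-th root of unity for some `n` dividing `N`, and `φ(n) = [Q(ζ) : Q] <= [K(ζ) : Q] =
[K : Q] deg p_i <= d r`. By TOT `n <= 2 (d r)^2`, so `n` divides `M = (2 (d r)^2)!` and `p_i` divides
`X^M - 1`. The `p_i` are pairwise coprime, so `m` divides `X^M - 1`, `S^M = 1`. (Alternative for the
last two steps: `m` squarefree, and every root of `m` in a splitting field is a root of `X^M - 1`,
so `m` divides `X^M - 1` over the splitting field, hence over `K`.) -/
def RouStatement : Prop :=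
  ∀ (K : Type) [Field K] [NumberField K] (V : Type) [AddCommGroup V] [Module K V]
    [FiniteDimensional K V] (d r N : ℕ) (S : V →ₗ[K] V), Module.finrank ℚ K ≤ d →
    Module.finrank K V < r → 0 < N → S ^ N = 1 → S ^ (2 * (d * r) ^ 2).factorial = 1

/-- **Row PER** (period of a function with vanishing minors; uses EVB, ROU). PROOF. Let `V` be the
span of the translates `τ_p f = (q |-> f (p + q))`, `p` in Z. If `V` is not finite dimensional of
dimension `< r`, there are `r` linearly independent translates (a maximal independent subfamily of a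
spanning family is a basis: `exists_linearIndependent`, choose `r` of its elements), contradiction to
EVB with `X = Z`. The shift `(S F)(q) = F (q + 1)` maps `V` to `V` (it maps `τ_p f` to `τ_(p+1) f`),
`S^N = 1` on `V` by the period `N`. ROU: `S^M = 1` on `V`, apply it to `f = τ_0 f`. -/
def PerStatement : Prop :=
  ∀ (K : Type) [Field K] [NumberField K] (d r N : ℕ) (f : ℤ → K), Module.finrank ℚ K ≤ d →
    0 < r → 0 < N → (∀ k : ℤ, f (k + N) = f k) →
    (∀ p q : Fin r → ℤ, (Matrix.of fun i j => f (p i + q j)).det = 0) →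
    ∀ k : ℤ, f (k + (2 * (d * r) ^ 2).factorial) = f k

/-- **Row FTP** (from `ff` back to `T`). PROOF. Choose `e` with `T 0 e <> 0` and put, for `c`,
`a_c = (c, e, e, e, e)`. `ff a_c M = β^(-M^2) T M c * R`, `R = prod_(l>=1) T (u_l M) e` (`u_0 = 1`),
`ff a_c 0 = T 0 c * (T 0 e)^4`. The case `c = e` shows `R <> 0`. So
`T M c = r T 0 c`, `r = (T 0 e)^4 / (β^(-M^2) R)`. -/
def FtpStatement : Prop :=
  ∀ (K : Type) [Field K] (g N : ℕ) (α β : K) (T : ℤ → (Fin g → ZMod 2) → K)
    (x : ℤ → (Fin g → ZMod 2) × (Fin g → ZMod 2) → K) (u : Fin 5 → ℕ) (M : ℤ),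
    NSeq K g N α β T x → u 0 = 1 → (∀ a, ff β T u a M = ff β T u a 0) →
    ∃ r : K, ∀ c, T M c = r * T 0 c

/-- **Row OUA** (OUTPUT of the blocks A and B; uses LGR, FPE, MNV, PER, FTP; proves `AlgStatement`
of StmtsZ). PROOF. `r, S0` from MNV, `B = (2 (d r)^2)!`. Assume `S0 < sum_S`. `u` from LGR. For every
`a` all minors of `ff a` vanish (MNV), so by PER (FPE) `ff a (0 + B) = ff a 0`; FTP with `M = B`.
`B >= 1`. -/
def OuaStatement : Prop := AlgStatement

end Pool.Agent.THS
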