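import Pool.Agent.THS.StmtsT

/-!
THS, block N (heights, Northcott, reduction). Complete proofs are in the docstrings. Index sets:
`A = Fin g -> ZMod 2`; the sequences are `T : Z -> (A -> K)` and `x : Z -> (A x A -> K)`.
`Height.mulHeight` is Mathlib's relative multiplicative height `H_K` of a tuple.
-/

namespace Pool.Agent.THS

open scoped BigOperators

/-- `max_i |x_i|_v`. -/
noncomputable def nv {K ι : Type} [Field K] (v : AbsoluteValue K ℝ) (x : ι → K) : ℝ := ⨆ i, v (x i)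

/-- `x` and `y` are congruent modulo `v` as projective points: all 2 x 2 minors are smaller than
`|x| |y|`. -/
def PC {K ι : Type} [Field K] (v : AbsoluteValue K ℝ) (x y : ι → K) : Prop :=
  ∀ i j, v (x i * y j - x j * y i) < nv v x * nv v y

/-- The data of block N over a field `K`: `T k` is `l m^(k^2) Theta(k z)`, `x k` is proportional to
`V(k z)`; `dup` is (H1) with (H3) for the pairs (k,0), (0,k), (k,k), (0,0); `rel` is the inverted
Riemann relation. -/
structure NSeq (K : Type) [Field K] (g N : ℕ) (α β : K) (T : ℤ → (Fin g → ZMod 2) → K)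
    (x : ℤ → (Fin g → ZMod 2) × (Fin g → ZMod 2) → K) : Prop where
  hN : 0 < N
  hα : α ≠ 0
  hβ : β ≠ 0
  ab : α ^ 2 = β ^ N
  T0 : ∀ k, T k ≠ 0
  x0 : ∀ k, x k ≠ 0
  per : ∀ k c, T (k + N) c = α * β ^ k * T k c
  dup : ∀ k b, (∑ c, (sgn b c : K) * T k c ^ 2) ^ 2
      = (∑ c, (sgn b c : K) * (T (2 * k) c * T 0 c)) * ∑ c, (sgn b c : K) * T 0 c ^ 2
  rel : ∀ i j, ∃ l : K, l ≠ 0 ∧ ∀ a d, T (i + j) (a + d) * T (i - j) d
      = l * ∑ b, (sgn b (a + d) : K) * (x i (a, b) * x j (a, b))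

/-- **Row HFS** (finite support). PROOF. Let `x i0 <> 0`. For all but finitely many finite places
`v` every nonzero coordinate has `v (x i) = 1` (`NumberField.FinitePlace.hasFiniteMulSupport`, or
`Height.AdmissibleAbsValues.hasFiniteMulSupport`, finite union over the coordinates), and then the
supremum over the finite type is 1 (zero coordinates give 0, `v (x i0) = 1`). -/
def HfsStatement : Prop :=
  ∀ (K : Type) [Field K] [NumberField K] (ι : Type) [Finite ι] (x : ι → K), x ≠ 0 →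
    {v : NumberField.FinitePlace K | nv v.val x ≠ 1}.Finite

/-- **Row HCP** (comparison of heights; uses HFS). PROOF. `NumberField.mulHeight_eq` for every `X i`,
`Y j`. Raise the archimedean inequality to the power `v.mult` and multiply over the infinite places;
multiply the nonarchimedean one over the finite places (`finprod_le_finprod` or: take a finite set
of finite places outside which `v 2 = v β = 1` and all `nv v (X i) = nv v (Y j) = 1` (HFS), replace
each finprod by the product over this set, `finprod_eq_prod_of_mulSupport_subset`, and use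
`Finset.prod_le_prod`). Product formula (`NumberField.prod_abs_eq_one`) for `β` : the factors
`v β ^ e` disappear; for 2: the product over the finite places of `v 2` is `2 ^ (-[K : Q])`, because
`v 2 = 2` at the infinite places and the sum of `v.mult` is `[K : Q]`
(`NumberField.InfinitePlace.sum_mult_eq`). -/
def HcpStatement : Prop :=
  ∀ (K : Type) [Field K] [NumberField K] (ι κ : Type) [Finite ι] [Finite κ] (m n e q : ℕ) (C : ℝ)
    (β : K) (X : Fin m → ι → K) (Y : Fin n → κ → K),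
    0 ≤ C → β ≠ 0 → (∀ i, X i ≠ 0) → (∀ j, Y j ≠ 0) →
    (∀ v : NumberField.InfinitePlace K,
      ∏ i, nv v.val (X i) ≤ C * v β ^ e * ∏ j, nv v.val (Y j)) →
    (∀ v : NumberField.FinitePlace K,
      v 2 ^ q * ∏ i, nv v.val (X i) ≤ v β ^ e * ∏ j, nv v.val (Y j)) →
    ∏ i, Height.mulHeight (X i)
      ≤ (C * 2 ^ q) ^ Module.finrank ℚ K * ∏ j, Height.mulHeight (Y j)

/-- **Row NUF** (Northcott, uniform in the field). PROOF. Fix an embedding `φ : K -> C` (injective).
Let `mulHeight₁ x <= H` (so `H >= 1`, else the set is empty). By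
`NumberField.exists_nat_le_mulHeight₁` there is `n <> 0`, `n <= H`, with `a = n x` integral. Every
infinite place has `v x <= mulHeight₁ x` (`NumberField.mulHeight₁_eq`: all factors `max (v x) 1` are
`>= 1`, `v.mult >= 1`), so all conjugates of `a` have absolute value `<= H^2`; by
`NumberField.Embeddings.coeff_bdd_of_norm_le` the coefficients of `minpoly ℚ a` (integers, as `a` is
integral: `minpoly.isIntegrallyClosed_eq_field_fractions'`) are bounded by
`C0 = max (H^2) 1 ^ d * d.choose (d/2)` (use `finrank <= d`, monotone; or the cruder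
`max (H^2) 1 ^ d * 2 ^ d`), degree `<= d`. So `φ a` is a root of one of the finitely many integer
polynomials `p` of degree `<= d` with coefficients of absolute value `<= C0`, `p <> 0`; the set `R`
of all their complex roots is a finite set which depends only on `d, H`; `φ x = φ a / n` lies in the
finite set `{r / n : r ∈ R, 1 <= n <= H}`. Take `B` its cardinality; `φ` is injective
(`Set.ncard_le_ncard_of_injOn`). -/
def NufStatement : Prop :=
  ∀ (d : ℕ) (H : ℝ), ∃ B : ℕ, ∀ (K : Type) [Field K] [NumberField K], Module.finrank ℚ K ≤ d →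
    {x : K | Height.mulHeight₁ x ≤ H}.Finite ∧ {x : K | Height.mulHeight₁ x ≤ H}.ncard ≤ B

/-- **Row NPP** (pigeonhole for projective points; uses NUF). PROOF. For every `k` choose `i` with
`x k i <> 0`; all quotients `x k j / x k i` have
`mulHeight₁ (x k j / x k i) = mulHeight ![x k j, x k i] <= mulHeight (x k) <= H`
(`Height.mulHeight₁_div_eq_mulHeight`, `Height.mulHeight_comp_le` for `![j, i] : Fin 2 -> ι`, here
`i, j` may coincide). So `k |-> (i, (x k j / x k i)_j)` maps `{0..B}` into `ι × (ι -> F)`, `F` the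
finite set of NUF, which has at most `B = n * B0 ^ n` elements (`n = card ι`); two indices `i < j`
have the same image, so the two points are proportional. (`H` may be `< 1`: then the hypothesis is
never satisfied, `Height.one_le_mulHeight`.) -/
def NppStatement : Prop :=
  ∀ (ι : Type) [Fintype ι] (d : ℕ) (H : ℝ), ∃ B : ℕ,
    ∀ (K : Type) [Field K] [NumberField K], Module.finrank ℚ K ≤ d →
    ∀ x : ℕ → ι → K, (∀ k, x k ≠ 0) → (∀ k, Height.mulHeight (x k) ≤ H) →
    ∃ i j : ℕ, i < j ∧ j ≤ B ∧ ∃ l : K, l ≠ 0 ∧ ∀ c, x j c = l * x i c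

/-- **Row LAR** (archimedean duplication inequality; uses ORT). PROOF. `Q b = sum_c sgn b c S c^2`.
By ORT `2^g S c^2 = sum_b sgn b c * Q b` (`sgn b c = sgn c b`, `sgn = 1` or `-1`), so
`2^g |S|^2 <= 2^g max |Q b|` (`v 2 = 2`, there are `2^g` elements `b`), `|S|^4 <= max |Q b|^2`
`= max |sum_c sgn (D c Z c)| |sum_c sgn Z c^2| <= 2^g |D| |Z| 2^g |Z|^2`. -/
def LarStatement : Prop :=
  ∀ (K : Type) [Field K] (v : AbsoluteValue K ℝ) (g : ℕ) (S D Z : (Fin g → ZMod 2) → K),
    v 2 = 2 →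
    (∀ b, (∑ c, (sgn b c : K) * S c ^ 2) ^ 2
      = (∑ c, (sgn b c : K) * (D c * Z c)) * ∑ c, (sgn b c : K) * Z c ^ 2) →
    nv v S ^ 4 ≤ 4 ^ g * nv v D * nv v Z ^ 3

/-- **Row LNA** (nonarchimedean duplication inequality; uses ORT). PROOF. As LAR, with the
ultrametric inequality (`IsNonarchimedean`, for finite sums
`IsNonarchimedean.apply_sum_le` or induction): `v 2^g |S|^2 <= max |Q b|`, so
`v 2^(2g) |S|^4 <= max |Q b|^2 <= |D| |Z| |Z|^2`. -/
def LnaStatement : Prop :=
  ∀ (K : Type) [Field K] (v : AbsoluteValue K ℝ) (g : ℕ) (S D Z : (Fin g → ZMod 2) → K),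
    IsNonarchimedean v →
    (∀ b, (∑ c, (sgn b c : K) * S c ^ 2) ^ 2
      = (∑ c, (sgn b c : K) * (D c * Z c)) * ∑ c, (sgn b c : K) * Z c ^ 2) →
    v 2 ^ (2 * g) * nv v S ^ 4 ≤ nv v D * nv v Z ^ 3

/-- **Row PRB** (maximum of a quasi-periodic function). PROOF. `G k = F k^(2N) b^(-k^2)` (zpow) has
`G (k+N) = a^(2N) b^(2Nk) F k^(2N) b^(-(k+N)^2) = G k` because `a^2 = b^N`, and
`G k^4 <= C^(2N) G (2k) G 0^3` (raise the hypothesis to the power `2N`, multiply by `b^(-4k^2)`).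
`G` takes its maximum `G k0` (values at `0..N-1`); `G k0^4 <= C^(2N) G k0 G 0^3`, so
`G k^3 <= G k0^3 <= C^(2N) G 0^3` for all `k`; multiply by `b^(3k^2)`. -/
def PrbStatement : Prop :=
  ∀ (N : ℕ) (F : ℤ → ℝ) (a b C : ℝ), 0 < N → 0 < a → 0 < b → 0 < C → (∀ k, 0 < F k) →
    a ^ 2 = b ^ N → (∀ k, F (k + N) = a * b ^ k * F k) →
    (∀ k, F k ^ 4 ≤ C * F (2 * k) * F 0 ^ 3) →
    ∀ k : ℤ, F k ^ (6 * N) ≤ C ^ (2 * N) * F 0 ^ (6 * N) * b ^ (3 * k ^ 2)

/-- **Row HTK** (height of `T k`; uses HCP, LAR, LNA, PRB). PROOF. At an infinite place LAR and PRB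
with `F k = nv v (T k)` (positive, `T k <> 0`), `a = v α`, `b = v β`, `C = 4^g`:
`nv (T k)^(6N) <= (4^g)^(2N) nv (T 0)^(6N) v β^(3k^2)`; at a finite place LNA and PRB with
`C = v 2^(-2g)`: `v 2^(4gN) nv (T k)^(6N) <= nv (T 0)^(6N) v β^(3k^2)`. (`k^2 = (k.natAbs)^2` as a
natural number: `e = 3 * k.natAbs^2`.) HCP with `m = n = 6N`, constant families, `q = 4gN`,
constant `4^(2gN)`: `H(T k)^(6N) <= (4^(2gN) 2^(4gN))^D H(T 0)^(6N) = (16^(gD) H(T 0)^3)^(2N)`,
`D = [K : Q]`; take the root (`pow_le_pow_left_iff`, `2N > 0`). -/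
def HtkStatement : Prop :=
  ∀ (K : Type) [Field K] [NumberField K] (g N : ℕ) (α β : K) (T : ℤ → (Fin g → ZMod 2) → K)
    (x : ℤ → (Fin g → ZMod 2) × (Fin g → ZMod 2) → K), NSeq K g N α β T x →
    ∀ k, Height.mulHeight (T k) ^ 3
      ≤ 16 ^ (g * Module.finrank ℚ K) * Height.mulHeight (T 0) ^ 3

/-- **Row HXK** (height of `x k`; uses HCP, ORT). PROOF. `rel` for `i = j = k` and ORT give, for all
`a, b`, `sum_d sgn b (a+d) T (2k) (a+d) T 0 d = l 2^g x k (a,b)^2` (`k + k = 2 * k`, `k - k = 0`). So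
`v l 2^g |x k|^2 <= 2^g |T (2k)| |T 0|` at the infinite places, and `v l v 2^g |x k|^2 <=
|T (2k)| |T 0|` at the finite ones. HCP with `X = ![x k, x k]`, `Y = ![T (2k), T 0]`, `β = l⁻¹`,
`e = 1`, `C = 1`, `q = g`. -/
def HxkStatement : Prop :=
  ∀ (K : Type) [Field K] [NumberField K] (g N : ℕ) (α β : K) (T : ℤ → (Fin g → ZMod 2) → K)
    (x : ℤ → (Fin g → ZMod 2) × (Fin g → ZMod 2) → K), NSeq K g N α β T x →
    ∀ k, Height.mulHeight (x k) ^ 2
      ≤ 2 ^ (g * Module.finrank ℚ K) * (Height.mulHeight (T (2 * k)) * Height.mulHeight (T 0))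

/-- **Row HTZ** (height of `T 0`; uses HCP). PROOF. `rel` for `i = j = 0`: for all `c, d`
(`a = c - d = c + d`) `T 0 c T 0 d = l sum_b sgn b c x 0 (a,b)^2`, so `|T 0|^2 <= v l 2^g |x 0|^2` at
the infinite places and `|T 0|^2 <= v l |x 0|^2` at the finite ones. HCP with `q = 0`, `C = 2^g`,
`β = l`, `e = 1`; then square roots: `H(T 0)^2 <= 2^(gD) H(x 0)^2`. -/
def HtzStatement : Prop :=
  ∀ (K : Type) [Field K] [NumberField K] (g N : ℕ) (α β : K) (T : ℤ → (Fin g → ZMod 2) → K)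
    (x : ℤ → (Fin g → ZMod 2) × (Fin g → ZMod 2) → K), NSeq K g N α β T x →
    Height.mulHeight (T 0) ^ 2
      ≤ 2 ^ (g * Module.finrank ℚ K) * Height.mulHeight (x 0) ^ 2

/-- **Row HXB** (all `x k` have bounded height; uses HTK, HXK, HTZ). PROOF. With `D = [K : Q]`:
`H(x k)^6 <= 2^(3gD) H(T 2k)^3 H(T 0)^3 <= 2^(3gD) 16^(gD) H(T 0)^6 <= 2^(3gD) 2^(4gD) 2^(3gD)
H(x 0)^6 = 2^(10gD) H(x 0)^6 <= (4^(gD) H(x 0))^6`. -/
def HxbStatement : Prop :=
  ∀ (K : Type) [Field K] [NumberField K] (g N : ℕ) (α β : K) (T : ℤ → (Fin g → ZMod 2) → K)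
    (x : ℤ → (Fin g → ZMod 2) × (Fin g → ZMod 2) → K), NSeq K g N α β T x →
    ∀ k, Height.mulHeight (x k) ≤ 4 ^ (g * Module.finrank ℚ K) * Height.mulHeight (x 0)

/-- **Row PIG** (OUTPUT 1 of block N; uses HXB, NPP). PROOF. NPP for `ι = A x A`, the height bound
`4^(g d) max(H, 1)` and the points `x k`, `k` in N. -/
def PigStatement : Prop :=
  ∀ (g d : ℕ) (H : ℝ), ∃ B : ℕ, ∀ (K : Type) [Field K] [NumberField K], Module.finrank ℚ K ≤ d →
    ∀ (N : ℕ) (α β : K) (T : ℤ → (Fin g → ZMod 2) → K)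
    (x : ℤ → (Fin g → ZMod 2) × (Fin g → ZMod 2) → K), NSeq K g N α β T x →
    Height.mulHeight (x 0) ≤ H →
    ∃ i j : ℕ, i < j ∧ j ≤ B ∧ ∃ l : K, l ≠ 0 ∧ ∀ c, x (j : ℤ) c = l * x (i : ℤ) c

/-- **Row PCE** (projective congruence by a scalar). PROOF. Let `v (y p) = |y| > 0` and
`l = x p / y p`. `=>`: `v (x i - l y i) = v (x i y p - x p y i) / v (y p) < |x|`; `l <> 0`, since
`x p = 0` would give `v (x i) |y| < |x| |y|` for all `i`, but some `v (x i) = |x|`. The strict
inequality for the supremum: finite type (`exists_eq_ciSup_of_finite`). `<=`: `x i = l y i + e i`,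
`v (e i) < |x|`, so `|l| |y| = |x|` (ultrametric, at the maximal coordinate of `x` and of `y`), and
`x i y j - x j y i = e i y j - e j y i`. Last claim: the same computation. -/
def PceStatement : Prop :=
  ∀ (K ι : Type) [Field K] [Finite ι] (v : AbsoluteValue K ℝ) (x y : ι → K),
    IsNonarchimedean v → x ≠ 0 → y ≠ 0 →
    ((PC v x y ↔ ∃ l : K, l ≠ 0 ∧ ∀ i, v (x i - l * y i) < nv v x) ∧
      ∀ l : K, (∀ i, v (x i - l * y i) < nv v x) → v l * nv v y = nv v x)

/-- **Row PCT** (tensor products). PROOF. Put `W = |S| |D|`. Let `v (D q) = |D|`. For the indices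
`i, j`: `S i D q = l S' i D' q + e i`, `v (e i) < |S| |D|`, the same for `j`; so
`(S i S' j - S j S' i) D q = e i S' j - e j S' i` has `v < |S| |D| |S'|`; divide by `v (D q)`.
Symmetric for `D`. (`|S'| > 0`, `|D'| > 0`.) -/
def PctStatement : Prop :=
  ∀ (K ι κ : Type) [Field K] [Finite ι] [Finite κ] (v : AbsoluteValue K ℝ) (S S' : ι → K)
    (D D' : κ → K) (l : K), IsNonarchimedean v → S ≠ 0 → S' ≠ 0 → D ≠ 0 → D' ≠ 0 →
    (∀ i q, v (S i * D q - l * (S' i * D' q)) < nv v S * nv v D) →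
    PC v S S' ∧ PC v D D'

/-- **Row FOI** (Fourier transform is unimodular off 2; uses ORT). PROOF. `<=` for the transform:
ultrametric, `v (sgn) = 1`. `>=`: `2^g X (a,b) = sum_d sgn b (a+d) W (a,d)` for
`W (a,d) = sum_b sgn b (a+d) X (a,b)` (ORT), and `v (2^g) = 1`. So the two maxima agree. -/
def FoiStatement : Prop :=
  ∀ (K : Type) [Field K] (v : AbsoluteValue K ℝ) (g : ℕ)
    (X : (Fin g → ZMod 2) × (Fin g → ZMod 2) → K), IsNonarchimedean v → v 2 = 1 →
    nv v (fun t : (Fin g → ZMod 2) × (Fin g → ZMod 2) =>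
      ∑ b, (sgn b (t.1 + t.2) : K) * X (t.1, b)) = nv v X

/-- **Row RED** (OUTPUT 2 of block N: reduction of `T`; uses PCE, PCT, FOI). PROOF. By PCE
`x k = λ_k x 0 + e_k`, `λ_k <> 0`, `|e_k| < |x k| = |λ_k| |x 0|`. For `i, j` in Z put
`W (a,d) = T (i+j) (a+d) T (i-j) d = l sum_b sgn b (a+d) x i (a,b) x j (a,b)` (`rel`) and
`W0 (a,d) = T 0 (a+d) T 0 d = l0 sum_b sgn b (a+d) x 0 (a,b)^2`. The difference
`x i x j - λ_i λ_j (x 0)^2` is `< |λ_i λ_j| |x 0|^2 =: M` at every `(a,b)`, so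
`|W - (l λ_i λ_j / l0) W0| < v l M` (FOI for the difference), and `|W| = v l max |x i x j| = v l M`
(FOI; `max |x i x j (a,b)| = M`: at the coordinate where `|x 0|` is maximal). Now
`|W| = |T (i+j)| |T (i-j)|` (a maximum of products over independent indices: `(a,d) |-> (a+d, d)` is
a bijection). So PCT with `S = T (i+j)`, `D = T (i-j)`, `S' = D' = T 0` gives
`PC v (T (i+j)) (T 0)`. For `m = 2k` take `i = j = k`, for `m = 2k+1` take `i = k+1`, `j = k`. -/
def RedStatement : Prop :=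
  ∀ (K : Type) [Field K] (v : AbsoluteValue K ℝ) (g N : ℕ) (α β : K)
    (T : ℤ → (Fin g → ZMod 2) → K) (x : ℤ → (Fin g → ZMod 2) × (Fin g → ZMod 2) → K),
    IsNonarchimedean v → v 2 = 1 → NSeq K g N α β T x → (∀ k, PC v (x k) (x 0)) →
    ∀ k, PC v (T k) (T 0)

/-- **Row DIL** (dilation of the data). PROOF. `per`: `T (c (k + N)) = T (c k + c N)`; from
`T (k + N) = α β^k T k` one gets by induction on `u`
`T (k + u N) = α^u β^(u k) β^(N u(u-1)/2) T k`; with `u = c` and `k` replaced by `c k`: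
`T (c k + c N) = [α^c β^(N c(c-1)/2)] (β^(c^2))^k T (c k)`; `α'^2 = α^(2c) β^(N c(c-1))
= β^(N c) β^(N c(c-1)) = β^(N c^2)`. `dup`, `rel`, `T0`, `x0` at the multiples of `c`. -/
def DilStatement : Prop :=
  ∀ (K : Type) [Field K] (g N : ℕ) (α β : K) (T : ℤ → (Fin g → ZMod 2) → K)
    (x : ℤ → (Fin g → ZMod 2) × (Fin g → ZMod 2) → K) (c : ℕ), NSeq K g N α β T x → 0 < c →
    NSeq K g N (α ^ c * β ^ (N * (c * (c - 1) / 2))) (β ^ (c ^ 2)) (fun k => T (c * k))
      (fun k => x (c * k))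

end Pool.Agent.THS
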