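import Pool.Agent.THS.StmtsT
import Pool.Agent.THS.StmtsN

/-!
THS, block G: from the theta functions to the sequence T over K (scalars), proportional points,
assembly. All proofs are in the docstrings.
-/

namespace Pool.Agent.THS

open scoped BigOperators

/-- Riemann's quadratic expression
`P_(a,b)(i,j) = sum_c (-1)^(b.(a+c)) T_(a+c)(i+j) T_c(i-j)` of a sequence of vectors. -/
def RQ {g : ℕ} {K : Type} [Field K] (T : ℤ → (Fin g → ZMod 2) → K) (a b : Fin g → ZMod 2)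
    (i j : ℤ) : K :=
  ∑ c : Fin g → ZMod 2, (sgn b (a + c) : K) * (T (i + j) (a + c) * T (i - j) c)

/-- **Row RQI** (Fourier inversion; uses ORT). PROOF. Insert the definition, exchange the sums:
`sum_c (sum_b sgn b (a+d) * sgn b (a+c)) T_(a+c)(i+j) T_c(i-j)`; cast ORT (for `a + d`, `a + c`)
to K: the inner sum is 2^g if a + d = a + c, that is c = d, and 0 otherwise. -/
def RqiStatement : Prop :=
  ∀ (g : ℕ) (K : Type) [Field K] (T : ℤ → (Fin g → ZMod 2) → K) (a d : Fin g → ZMod 2) (i j : ℤ),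
    ∑ b : Fin g → ZMod 2, (sgn b (a + d) : K) * RQ T a b i j
      = (2 : K) ^ g * (T (i + j) (a + d) * T (i - j) d)

/-- **Row SCA** (scalars; uses RQI for the field ℂ). PROOF. Let F = range of φ (a subfield,
`φ.fieldRange`), write α ~ β for α, β <> 0, α/β ∈ F (all numbers below are nonzero).
(R0) For all i, j, e, c: μ_i μ_j θ_(i+j)(e) θ_(i-j)(c) ∈ F: RQI with a = e + c, d = c (so
a + d = e in characteristic 2) and `RQ θ a b i j = V_i V_j` give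
2^g θ_(i+j)(e) θ_(i-j)(c) = sum_b sgn V_i(a,b) V_j(a,b), times μ_i μ_j it is
sum_b sgn φ(x_i(a,b)) φ(x_j(a,b)); and 2^g <> 0 in F.
Choose c0, c1 with θ_0(c0) <> 0, θ_1(c1) <> 0; ℓ = 1/θ_0(c0), n1 = 1/θ_1(c1), m = n1/ℓ.
(i) R0 (0,0): μ_0² θ_0(e) θ_0(c0) ∈ F and μ_0² θ_0(c0)² ∈ F, nonzero; quotient: ℓ θ_0(e) ∈ F;
and μ_0² ~ ℓ². (ii) R0 (1,0), the same way: n1 θ_1(e) ∈ F and μ_1 μ_0 ~ n1². Hence μ_1/μ_0 ~ m².
(iii) Claim: ν_k θ_k(e) ∈ F for all e, where ν_k = ℓ m^(k²), k = 0, 1, 2, ... True for k = 0, 1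
(ν_1 = n1). Step from k-1, k to k+1 (k ≥ 1): choose e with θ_k(e) <> 0; R0 (k,0):
μ_k μ_0 θ_k(e)² ∈ F, so μ_k μ_0 ~ ν_k², so μ_k μ_1 ~ ν_k² m² by (ii). Choose c with
θ_(k-1)(c) <> 0; R0 (k,1): μ_k μ_1 θ_(k+1)(e) θ_(k-1)(c) ∈ F and ν_(k-1) θ_(k-1)(c) ∈ F, nonzero,
so μ_k μ_1 θ_(k+1)(e)/ν_(k-1) ∈ F, so ν_k² m² θ_(k+1)(e)/ν_(k-1) ∈ F, and
ν_k² m²/ν_(k-1) = ℓ m^(2k²+2-(k-1)²) = ν_(k+1). (iv) Negative k: parity of θ, k² = (-k)².
(v) T k e = the element of K with φ(T k e) = ν_k θ_k(e) (choice). -/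
def ScaStatement : Prop :=
  ∀ (g : ℕ) (K : Type) [Field K] (φ : K →+* ℂ) (θ : ℤ → (Fin g → ZMod 2) → ℂ)
    (V : ℤ → (Fin g → ZMod 2) × (Fin g → ZMod 2) → ℂ)
    (x : ℤ → (Fin g → ZMod 2) × (Fin g → ZMod 2) → K) (μ : ℤ → ℂ),
    (∀ k, ∃ c, θ k c ≠ 0) → (∀ k c, θ (-k) c = θ k c) →
    (∀ a b i j, V i (a, b) * V j (a, b) = RQ θ a b i j) →
    (∀ k ab, φ (x k ab) = μ k * V k ab) → (∀ k, μ k ≠ 0) →
    ∃ (ℓ m : ℂ) (T : ℤ → (Fin g → ZMod 2) → K), ℓ ≠ 0 ∧ m ≠ 0 ∧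
      ∀ k c, φ (T k c) = ℓ * m ^ (k ^ 2) * θ k c

/-- **Row PXV** (Riemann relation over K; uses RQI). PROOF. `φ` is injective. Apply φ to the definition:
φ(RQ T a b i j) = ℓ² m^((i+j)²+(i-j)²) RQ θ a b i j = ℓ² m^(2i²+2j²) V_i(a,b) V_j(a,b) (integer exponents,
m <> 0: `zpow_add₀`). (ii) Both sides of the second claim are mapped to
ℓ⁴ m^(2i²+2j²+2k²+2l²) V_i V_j V_k V_l. (i) φ(RQ T a b i j) = w φ(x_i(a,b) x_j(a,b)) with
w = ℓ² m^(2i²+2j²)/(μ_i μ_j) <> 0 independent of (a,b). T(i+j) and T(i-j) are nonzero vectors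
(θ_k is), so by RQI for T some RQ T a b i j is nonzero (2^g <> 0 in K: φ is injective, so K has
characteristic 0; `(RingHom.charZero_iff φ.injective).2`);
for this (a,b) y = x_i(a,b) x_j(a,b) <> 0 and w = φ(RQ/y); s = RQ/y works for all (a,b). -/
def PxvStatement : Prop :=
  ∀ (g : ℕ) (K : Type) [Field K] (φ : K →+* ℂ) (θ : ℤ → (Fin g → ZMod 2) → ℂ)
    (V : ℤ → (Fin g → ZMod 2) × (Fin g → ZMod 2) → ℂ)
    (x : ℤ → (Fin g → ZMod 2) × (Fin g → ZMod 2) → K) (μ : ℤ → ℂ) (ℓ m : ℂ)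
    (T : ℤ → (Fin g → ZMod 2) → K),
    (∀ k, ∃ c, θ k c ≠ 0) →
    (∀ a b i j, V i (a, b) * V j (a, b) = RQ θ a b i j) →
    (∀ k ab, φ (x k ab) = μ k * V k ab) → (∀ k, μ k ≠ 0) → ℓ ≠ 0 → m ≠ 0 →
    (∀ k c, φ (T k c) = ℓ * m ^ (k ^ 2) * θ k c) →
    (∀ i j, ∃ s : K, s ≠ 0 ∧ ∀ a b, RQ T a b i j = s * (x i (a, b) * x j (a, b))) ∧
    (∀ a b i j k l, RQ T a b i j * RQ T a b k l = RQ T a b i l * RQ T a b k j)

/-- **Row SPE** (period of T; pure algebra). PROOF. θ(k+N) = e f^k θ(k) and k² + 2kN + N² = (k+N)² give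
φ(T(k+N)(c)) = α' β'^k φ(T k c) with α' = m^(N²) e, β' = m^(2N) f, both nonzero, and
α'² = m^(2N²) e² = m^(2N²) f^N = β'^N. α', β' ∈ range φ: choose c with θ 0 c <> 0; then
T 0 c <> 0 and α' = φ(T N c / T 0 c). Choose c with θ 1 c <> 0: α' β' = φ(T (1+N) c/T 1 c).
So α' = φ α, β' = φ β; use injectivity of φ. -/
def SpeStatement : Prop :=
  ∀ (g : ℕ) (K : Type) [Field K] (φ : K →+* ℂ) (θ : ℤ → (Fin g → ZMod 2) → ℂ) (ℓ m e f : ℂ)
    (N : ℕ) (T : ℤ → (Fin g → ZMod 2) → K),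
    (∀ k, ∃ c, θ k c ≠ 0) → ℓ ≠ 0 → m ≠ 0 → e ≠ 0 → f ≠ 0 → e ^ 2 = f ^ N →
    (∀ (k : ℤ) c, θ (k + N) c = e * f ^ k * θ k c) →
    (∀ k c, φ (T k c) = ℓ * m ^ (k ^ 2) * θ k c) →
    ∃ α β : K, α ≠ 0 ∧ β ≠ 0 ∧ α ^ 2 = β ^ N ∧ ∀ (k : ℤ) c, T (k + N) c = α * β ^ k * T k c

/-- All algebraic data used by the blocks A and N: `NSeq` (block N), parity, and Riemann's relation
(H1): for every (a,b) the matrix P_(a,b)(i,j) has rank one. -/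
structure TSeq (K : Type) [Field K] (g N : ℕ) (α β : K) (T : ℤ → (Fin g → ZMod 2) → K)
    (x : ℤ → (Fin g → ZMod 2) × (Fin g → ZMod 2) → K) : Prop extends NSeq K g N α β T x where
  even : ∀ k c, T (-k) c = T k c
  rk1 : ∀ a b i j k l, RQ T a b i j * RQ T a b k l = RQ T a b i l * RQ T a b k j

/-- **Row NSD** (`TSeq` from its essential properties; uses RQI). PROOF. `T0` : T k = 0 is impossible.
`dup`: rk1 for a = 0, (i,j) = (k,k), (k,l) = (0,0):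
RQ T 0 b k k * RQ T 0 b 0 0 = RQ T 0 b k 0 * RQ T 0 b 0 k;
RQ T 0 b k k = sum_c sgn b c * (T (2k) c * T 0 c) (`0 + c = c`, k + k = 2 * k, k - k = 0),
RQ T 0 b 0 0 = sum_c sgn b c * T 0 c^2,
RQ T 0 b k 0 = sum_c sgn b c T k c^2, RQ T 0 b 0 k = sum_c sgn b c T k c * T (-k) c = the same
(parity). `rel`: with s from the hypothesis, RQI: 2^g T (i+j) (a+d) T (i-j) d =
sum_b sgn b (a+d) * RQ T a b i j = s sum_b sgn b (a+d) (x i (a,b) * x j (a,b)); l = s/2^g. -/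
def NsdStatement : Prop :=
  ∀ (K : Type) [Field K] [CharZero K] (g N : ℕ) (α β : K) (T : ℤ → (Fin g → ZMod 2) → K)
    (x : ℤ → (Fin g → ZMod 2) × (Fin g → ZMod 2) → K), 0 < N → α ≠ 0 → β ≠ 0 → α ^ 2 = β ^ N →
    (∀ k, T k ≠ 0) → (∀ k, x k ≠ 0) → (∀ k c, T (k + N) c = α * β ^ k * T k c) →
    (∀ k c, T (-k) c = T k c) →
    (∀ i j, ∃ s : K, s ≠ 0 ∧ ∀ a b, RQ T a b i j = s * (x i (a, b) * x j (a, b))) →
    (∀ a b i j k l, RQ T a b i j * RQ T a b k l = RQ T a b i l * RQ T a b k j) →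
    TSeq K g N α β T x

/-- **Row THD** (OUTPUT 1 of block G: theta functions give the data; uses TOU, SCA, PXV, SPE, NSD).
PROOF. Put θ k c = Thc τ c (k z), V k (a,b) = Vab τ a b (k z), μ_k from the hypothesis (choose);
μ_k <> 0: otherwise φ (x k ab) = 0 for all ab, x k = 0. TOU: (1) Riemann's relation with x = i z,
y = j z (i z + j z = (i+j) z, i z - j z = (i-j) z): V_i(a,b) V_j(a,b) = RQ θ a b i j;
(2) parity θ (-k) = θ k; (3) θ k is not zero; (4) periods: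
(k+N) z = k z + (p + tau q), so θ (k+N) c = exp(-(2πi q.tau q) - 4πi q.(k z)) θ k c = e f^k θ k c,
e = exp(-2πi q.tau q), f = exp(-4πi q.z), and e² = f^N because N (q.z) = q.p + q.tau q
(hypothesis, sum over i of q_i times row i) and exp(-4πi q.p) = 1 (q.p an integer).
SCA gives ℓ, m, T; PXV, SPE, and parity of T (from parity of θ, φ injective) with NSD give TSeq
(T k <> 0: θ k c <> 0, ℓ m^(k²) <> 0; K has characteristic 0).
Last claim: T M = r T 0 gives, applying φ, Thc τ c (M z) = lam Thc τ c 0 for all c with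
lam = φ r / m^(M²) (θ 0 c = Thc τ c 0 as 0 z = 0); and N (M z) = M p + tau (M q). TOU, last part. -/
def ThdStatement : Prop :=
  ∀ (g : ℕ) (K : Type) [Field K] (φ : K →+* ℂ) (τ : Matrix (Fin g) (Fin g) ℂ), Siegel τ →
    ∀ (z : Fin g → ℂ) (N : ℕ) (p q : Fin g → ℤ), 0 < N →
    (∀ i, (N : ℂ) * z i = (p i : ℂ) + ∑ j, τ i j * (q j : ℂ)) →
    ∀ x : ℤ → (Fin g → ZMod 2) × (Fin g → ZMod 2) → K, (∀ k, x k ≠ 0) →
    (∀ k, ∃ μ : ℂ, ∀ ab, φ (x k ab) = μ * Vab τ ab.1 ab.2 (fun i => (k : ℂ) * z i)) →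
    ∃ (α β : K) (T : ℤ → (Fin g → ZMod 2) → K), TSeq K g N α β T x ∧
      ∀ (M : ℕ) (r : K), (∀ c, T M c = r * T 0 c) →
        ∃ p' q' : Fin g → ℤ, ∀ i, (M : ℂ) * z i = (p' i : ℂ) + ∑ j, τ i j * (q' j : ℂ)

/-- **Row PRP** (OUTPUT 2 of block G: proportional points). PROOF. `rel` for (j,i) and (i,i):
T (j+i) (a+d) T (j-i) d = l1 sum_b sgn b (a+d) (x j (a,b) x i (a,b))
 = l1 l sum_b sgn b (a+d) x i (a,b)^2 = (l1 l/l2) T (i+i) (a+d) T (i-i) d.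
For all e, d (a = e - d): T (j+i) e T (j-i) d = rho T (2i) e T 0 d. Choose e with
T (j+i) e <> 0 (`T0`); r = rho T (2i) e/T (j+i) e. -/
def PrpStatement : Prop :=
  ∀ (K : Type) [Field K] (g N : ℕ) (α β : K) (T : ℤ → (Fin g → ZMod 2) → K)
    (x : ℤ → (Fin g → ZMod 2) × (Fin g → ZMod 2) → K), NSeq K g N α β T x →
    ∀ (i j : ℤ) (l : K), (∀ ab, x j ab = l * x i ab) → ∃ r : K, ∀ c, T (j - i) c = r * T 0 c

end Pool.Agent.THS
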