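import Mathlib

namespace Pool.Agent.THS

open scoped BigOperators

/-- term of the theta series with real characteristic `s`:
`exp (pi i (n+s).tau(n+s) + 2 pi i (n+s).z)`. -/
noncomputable def tht {g : ℕ} (τ : Matrix (Fin g) (Fin g) ℂ) (s : Fin g → ℝ) (z : Fin g → ℂ)
    (n : Fin g → ℤ) : ℂ :=
  Complex.exp (Real.pi * Complex.I *
      (∑ i, ∑ j, ((n i : ℂ) + (s i : ℂ)) * τ i j * ((n j : ℂ) + (s j : ℂ)))
    + 2 * Real.pi * Complex.I * ∑ i, ((n i : ℂ) + (s i : ℂ)) * z i)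

/-- theta series with real characteristic `s`. -/
noncomputable def ths {g : ℕ} (τ : Matrix (Fin g) (Fin g) ℂ) (s : Fin g → ℝ) (z : Fin g → ℂ) : ℂ :=
  ∑' n : Fin g → ℤ, tht τ s z n

end Pool.Agent.THS
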