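import Pool.Agent.THS.DefsT

/-!
THS, block T (analysis): theta series in g variables. Everything here is for one fixed period
matrix, no number field. All proofs are in the docstrings.
-/

namespace Pool.Agent.THS

open scoped BigOperators

/-- Siegel upper half space. -/
def Siegel {g : ℕ} (τ : Matrix (Fin g) (Fin g) ℂ) : Prop :=
  τ.transpose = τ ∧ (τ.map Complex.im).PosDef

/-- half integer vector `a/2`. -/
noncomputable def hv {g : ℕ} (a : Fin g → ZMod 2) : Fin g → ℝ := fun i => ((a i).val : ℝ) / 2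

/-- the sign `(-1)^(b.c)`. -/
def sgn {g : ℕ} (b c : Fin g → ZMod 2) : ℤ := (-1) ^ (∑ i, (b i).val * (c i).val)

/-- `Theta_c(x) = theta[c,0](2x, 2 tau)`. -/
noncomputable def Thc {g : ℕ} (τ : Matrix (Fin g) (Fin g) ℂ) (c : Fin g → ZMod 2)
    (x : Fin g → ℂ) : ℂ := ths ((2 : ℂ) • τ) (hv c) (fun i => 2 * x i)

/-- `V_(a,b)(x) = theta[a,b](2x, tau)`. -/
noncomputable def Vab {g : ℕ} (τ : Matrix (Fin g) (Fin g) ℂ) (a b : Fin g → ZMod 2)
    (x : Fin g → ℂ) : ℂ := ths τ (hv a) (fun i => 2 * x i + ((hv b i : ℝ) : ℂ))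

/-- **Row COE** (coercivity). A positive definite real matrix dominates a multiple of the
identity. PROOF. g = 0 trivial (c = 1). Else: `M.PosDef` gives `0 < x . (Y x)` for x <> 0
(`Matrix.posDef_iff_dotProduct_mulVec`, star trivial on reals); the function
x |-> sum_ij x_i Y_ij x_j is continuous on the compact set {sum x_i^2 = 1}; let c > 0 be its
minimum there; for x <> 0 divide by sqrt(sum x_i^2); for x = 0 both sides vanish. -/
def CoeStatement : Prop :=
  ∀ (g : ℕ) (Y : Matrix (Fin g) (Fin g) ℝ), Y.PosDef →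
    ∃ c : ℝ, 0 < c ∧ ∀ x : Fin g → ℝ, c * ∑ i, x i ^ 2 ≤ ∑ i, ∑ j, x i * Y i j * x j

/-- **Row GSO** (one variable). PROOF. -c n^2 + B|n| <= -|n| + (B+1)^2/(4c) because
c n^2 - (B+1)|n| + (B+1)^2/(4c) = (sqrt c |n| - (B+1)/(2 sqrt c))^2 >= 0 (no square roots:
4c times it is (2c|n| - (B+1))^2). And sum over Z of exp(-|n|) converges: `Summable.of_nat_of_neg`
(or `summable_int_iff_summable_nat_and_neg`) and the geometric series `Real.summable_exp_neg_nat`,
`summable_geometric_of_lt_one`. -/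
def GsoStatement : Prop :=
  ∀ c B : ℝ, 0 < c → Summable (fun n : ℤ => Real.exp (-c * (n : ℝ) ^ 2 + B * |(n : ℝ)|))

/-- **Row PIS** (product of summable families). PROOF. Induction on g. g = 0: the index type
`Fin 0 -> Z` is a singleton (`summable_of_finite_support` / `Summable.of_finite`). Step: via
`Fin.consEquiv` (or `Fin.insertNthEquiv (fun _ => Z) 0`) the index type is Z x (Fin g -> Z),
`Fin.prod_univ_succ`, and `Summable.mul_of_nonneg` for two nonnegative families. -/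
def PisStatement : Prop :=
  ∀ (g : ℕ) (f : Fin g → ℤ → ℝ), (∀ i n, 0 ≤ f i n) → (∀ i, Summable (f i)) →
    Summable (fun n : Fin g → ℤ => ∏ i, f i (n i))

/-- **Row TBD** (domination; uses COE, GSO, PIS). PROOF. Let Y = Im tau, c as in COE,
R >= 0 wlog (if R < 0 and g >= 1 the hypotheses on s are contradictory; if g = 0 everything is a
sum over one point; simplest: use R' = |R|). With x = n + s real, the real part of
pi i x.tau x + 2 pi i x.z is -pi x.Y x - 2 pi x.Im z <= -pi c sum x_i^2 + 2 pi R sum |x_i|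
(use `Complex.norm_exp`, im (tau i j) = Y i j). Next x_i = n_i + s_i:
x_i^2 >= n_i^2 - 2 R |n_i| (as s_i^2 >= 0, |s_i| <= R) and |x_i| <= |n_i| + R. Hence
u n := prod_i exp(-pi c n_i^2 + (2 pi c R + 2 pi R)|n_i| + 2 pi R^2) works:
summable by GSO (times the constant exp(2 pi R^2)) and PIS; exp of a sum = product of exps
(`Real.exp_sum`). -/
def TbdStatement : Prop :=
  ∀ (g : ℕ) (τ : Matrix (Fin g) (Fin g) ℂ), Siegel τ → ∀ R : ℝ,
    ∃ u : (Fin g → ℤ) → ℝ, Summable u ∧ ∀ (s : Fin g → ℝ) (z : Fin g → ℂ),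
      (∀ i, |s i| ≤ R) → (∀ i, ‖z i‖ ≤ R) → ∀ n, ‖tht τ s z n‖ ≤ u n

/-- **Row TLD** (entire on lines; uses TBD). PROOF. `differentiableOn_tsum_of_summable_norm` on
each ball |t| < r: there |u_i + t v_i| <= R := max over i of (|u_i| + r |v_i|), |s_i|; the bound
comes from TBD; each term is t |-> exp(polynomial in t). A function that is differentiable on
every ball around 0 is differentiable (`DifferentiableOn.differentiableAt` with the open ball of
radius |t|+1). -/
def TldStatement : Prop :=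
  ∀ (g : ℕ) (τ : Matrix (Fin g) (Fin g) ℂ), Siegel τ → ∀ (s : Fin g → ℝ) (u v : Fin g → ℂ),
    Differentiable ℂ (fun t : ℂ => ths τ s (fun i => u i + t * v i))

/-- **Row TPE** (periods and parity of the series; only the symmetry of tau is used, no
summability: all four are reindexings `Equiv.tsum_eq` and `tsum_mul_left`). PROOF.
(i) n |-> n + p. (ii) factor exp(2 pi i (n+s).p) = exp(2 pi i s.p) because n.p is an integer.
(iii) pi i x.tau x + 2 pi i x.(z + tau q) = pi i (x+q).tau(x+q) + 2 pi i (x+q).z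
 - pi i q.tau q - 2 pi i q.z with x = n + s (tau symmetric); then n |-> n + q. (iv) n |-> -n. -/
def TpeStatement : Prop :=
  ∀ (g : ℕ) (τ : Matrix (Fin g) (Fin g) ℂ), τ.transpose = τ →
    ∀ (s : Fin g → ℝ) (z : Fin g → ℂ) (p : Fin g → ℤ),
      ths τ (fun i => s i + (p i : ℝ)) z = ths τ s z ∧
      ths τ s (fun i => z i + (p i : ℂ))
        = Complex.exp (2 * Real.pi * Complex.I * ∑ i, (s i : ℂ) * (p i : ℂ)) * ths τ s z ∧
      ths τ s (fun i => z i + ∑ j, τ i j * (p j : ℂ))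
        = Complex.exp (-(Real.pi * Complex.I * ∑ i, ∑ j, (p i : ℂ) * τ i j * (p j : ℂ))
            - 2 * Real.pi * Complex.I * ∑ i, (p i : ℂ) * z i) * ths τ s z ∧
      ths τ s (fun i => -z i) = ths τ (fun i => -s i) z

/-- **Row BIJ**. (c, l, n) |-> (n + l + c, n - l) is a bijection A x Z^g x Z^g -> Z^g x Z^g.
Here the triple is (c, n, l). PROOF. Coordinatewise: given (m, m') put k = m - m' = 2l + c, so
c = k mod 2 (as element of ZMod 2, `ZMod.val_intCast`), l = (k - c)/2, n = m' + l. Injective: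
n + l + c and n - l determine 2l + c, its parity is c.val in {0,1}, then l, then n.
`funext` and `Function.bijective_iff_has_inverse`, omega after (c i).val < 2. -/
def BijStatement : Prop :=
  ∀ g : ℕ, Function.Bijective
    (fun t : (Fin g → ZMod 2) × (Fin g → ℤ) × (Fin g → ℤ) =>
      ((fun i => t.2.1 i + t.2.2 i + ((t.1 i).val : ℤ), fun i => t.2.1 i - t.2.2 i) :
        (Fin g → ℤ) × (Fin g → ℤ)))

/-- **Row PRD** (product formula; uses TBD, BIJ). PROOF. Both series are absolutely summable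
(TBD with R = max of all |s_i|, |x_i|, |y_i|; `Summable.of_norm_bounded`), so the left side is the
sum over (m, m') in Z^g x Z^g of tht(m) tht(m') (`tsum_mul_tsum_of_summable_norm`). Reindex by BIJ:
m = n + l + c, m' = n - l. With U = n + s + c/2, W = l + c/2: m + s = U + W, m' + s = U - W, so
(m+s).tau(m+s) + (m'+s).tau(m'+s) = U.(2 tau)U + W.(2 tau)W (tau symmetric, or simply because the
cross terms U.tau W + W.tau U cancel), (m+s).x + (m'+s).y = U.(x+y) + W.(x-y). So the term is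
tht (2 tau) (s + c/2) (x+y) n * tht (2 tau) (c/2) (x-y) l. Sum over A x (Z^g x Z^g):
finite sum over c (`Summable.tsum_prod`, `tsum_fintype`) and again
`tsum_mul_tsum_of_summable_norm` for 2 tau, which is Siegel. -/
def PrdStatement : Prop :=
  ∀ (g : ℕ) (τ : Matrix (Fin g) (Fin g) ℂ), Siegel τ →
    ∀ (s : Fin g → ℝ) (x y : Fin g → ℂ),
      ths τ s x * ths τ s y = ∑ c : Fin g → ZMod 2,
        ths ((2 : ℂ) • τ) (fun i => s i + hv c i) (fun i => x i + y i)
          * ths ((2 : ℂ) • τ) (hv c) (fun i => x i - y i)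

/-- **Row RRE** (Riemann relation for V; uses PRD, TPE). PROOF. PRD with s = a/2,
x -> 2x + b/2, y -> 2y + b/2: x + y becomes 2(x+y) + b (b.val integers), x - y becomes 2(x-y).
(a.val + c.val)/2 differs from hv(a+c) by an integer vector (0 or 1 in each coordinate: check the
four cases, or `ZMod.val_add`), TPE (i); TPE (ii) for p = b.val gives the factor
exp(2 pi i sum ((a.val + c.val)/2) b.val) = (-1)^(sum (a.val+c.val) b.val) = sgn b (a+c)
(same parity). -/
def RreStatement : Prop :=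
  ∀ (g : ℕ) (τ : Matrix (Fin g) (Fin g) ℂ), Siegel τ →
    ∀ (a b : Fin g → ZMod 2) (x y : Fin g → ℂ),
      Vab τ a b x * Vab τ a b y = ∑ c : Fin g → ZMod 2,
        (sgn b (a + c) : ℂ) * (Thc τ (a + c) (fun i => x i + y i) * Thc τ c (fun i => x i - y i))

/-- **Row ORT** (orthogonality of characters). sum_b (-1)^(b.c) (-1)^(b.d) = 2^g if c = d and 0
otherwise. PROOF. The summand is a product over i of (-1)^(b_i c_i + b_i d_i); sum over b in a
finite power of ZMod 2 = product of sums (`Finset.prod_univ_sum` / `Fintype.piFinset`,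
`Finset.sum_prod_piFinset`); each factor is 1 + (-1)^(c_i+d_i): 2 if c_i = d_i and 0 if not
(`decide` on ZMod 2). -/
def OrtStatement : Prop :=
  ∀ (g : ℕ) (c d : Fin g → ZMod 2),
    ∑ b : Fin g → ZMod 2, sgn b c * sgn b d = if c = d then (2 : ℤ) ^ g else 0

/-- **Row INV** (inversion; uses RRE, ORT). PROOF. Insert RRE: sum_b sgn b (a+d) sum_c sgn b (a+c) ..
 = sum_c (sum_b sgn b (a+d) sgn b (a+c)) ..; by ORT only a + c = a + d, that is c = d, survives. -/
def InvStatement : Prop :=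
  ∀ (g : ℕ) (τ : Matrix (Fin g) (Fin g) ℂ), Siegel τ →
    ∀ (a d : Fin g → ZMod 2) (x y : Fin g → ℂ),
      ∑ b : Fin g → ZMod 2, (sgn b (a + d) : ℂ) * (Vab τ a b x * Vab τ a b y)
        = (2 : ℂ) ^ g * (Thc τ (a + d) (fun i => x i + y i) * Thc τ d (fun i => x i - y i))

/-- **Row TCP** (parity and periods of Theta_c; uses TPE). PROOF. Parity: TPE (iv) and (i):
-c/2 = c/2 - c.val. Periods: 2(x + p + tau q) = 2x + 2p + (2 tau) q; TPE (iii) for 2 tau and q at
the point 2x + 2p, then TPE (ii) with p -> 2p: exp(2 pi i sum (c.val/2)(2 p_i)) = 1. The factor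
is exp(-pi i q.(2 tau)q - 2 pi i q.(2x + 2p)) = exp(-2 pi i q.tau q - 4 pi i q.x), since
exp(-4 pi i q.p) = 1. (Other order also works.) -/
def TcpStatement : Prop :=
  ∀ (g : ℕ) (τ : Matrix (Fin g) (Fin g) ℂ), Siegel τ → ∀ (c : Fin g → ZMod 2) (x : Fin g → ℂ),
    Thc τ c (fun i => -x i) = Thc τ c x ∧
    ∀ p q : Fin g → ℤ, Thc τ c (fun i => x i + ((p i : ℂ) + ∑ j, τ i j * (q j : ℂ)))
      = Complex.exp (-(2 * Real.pi * Complex.I * ∑ i, ∑ j, (q i : ℂ) * τ i j * (q j : ℂ))
          - 4 * Real.pi * Complex.I * ∑ i, (q i : ℂ) * x i) * Thc τ c x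

/-- **Row GRD** (grid average). PROOF. For an absolutely summable family c_n (n in Z^g) with
c_0 = 1 there is N >= 1 such that A_N := sum over n with N | n (all coordinates) of c_n is
nonzero: take a finite set F of indices outside which the sum of the norms is < 1/2
(`Summable.tsum_vanishing` / `summable_iff_vanishing_norm`), N larger than all |coordinates| of
elements of F; the nonzero n with N | n are outside F (a nonzero coordinate is >= N in absolute
value); so |A_N - 1| <= 1/2. And for x = k/N, k in (Fin N)^g: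
sum_k exp(2 pi i n.k/N) = N^g if N | n, and 0 otherwise (product over the coordinates of geometric
sums with ratio exp(2 pi i n_i/N)); exchange the finite sum with the series:
sum_k F(k/N) = N^g A_N <> 0 for F(x) = sum_n c_n exp(2 pi i n.x). Hence F(x) <> 0 for some
real x. -/
def GrdStatement : Prop :=
  ∀ (g : ℕ) (c : (Fin g → ℤ) → ℂ), Summable (fun n => ‖c n‖) → c 0 = 1 →
    ∃ x : Fin g → ℝ, ∑' n : Fin g → ℤ,
      c n * Complex.exp (2 * Real.pi * Complex.I * ∑ i, (n i : ℂ) * (x i : ℂ)) ≠ 0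

/-- **Row TNV** (theta is not identically zero; uses TBD, GRD). PROOF. GRD with
c_n = exp(pi i n.tau n) = tht tau 0 0 n (absolutely summable by TBD, s = 0, z = 0). -/
def TnvStatement : Prop :=
  ∀ (g : ℕ) (τ : Matrix (Fin g) (Fin g) ℂ), Siegel τ → ∃ z : Fin g → ℂ, ths τ 0 z ≠ 0

/-- **Row LPR** (two nonzero entire functions of one variable). PROOF. If f h = 0 everywhere with
f(0) <> 0, then f <> 0 near 0, so h = 0 near 0, so h = 0 by the identity theorem
(`AnalyticOnNhd.eq_of_eventuallyEq`, `Differentiable.analyticAt`), but h(1) <> 0. -/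
def LprStatement : Prop :=
  ∀ f h : ℂ → ℂ, Differentiable ℂ f → Differentiable ℂ h → f 0 ≠ 0 → h 1 ≠ 0 →
    ∃ t : ℂ, f t ≠ 0 ∧ h t ≠ 0

/-- **Row TCN** (H2: the Theta_c have no common zero; uses PRD, TLD, TNV, LPR). PROOF. Suppose
Theta_c(x) = 0 for all c. PRD with s = 0 and arguments u + x, x - u... precisely: for every u,
ths tau 0 (x + u) * ths tau 0 (x - u) = sum_c ths (2 tau)(0 + c/2)(2x) * ths (2 tau)(c/2)(2u)
 = sum_c Theta_c(x) Theta_c(u) = 0 (s = 0 : `fun i => 0 + hv c i` is `hv c`).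
Let ths tau 0 z0 <> 0 (TNV). f(t) = ths tau 0 (x + u(t)), h(t) = ths tau 0 (x - u(t)) on the line
u(t) = (1-t)(z0 - x) + t (x - z0): f(0) = ths(z0) <> 0, h(1) = ths(z0) <> 0, both entire by TLD
(write u(t) as base point + t * direction). LPR gives t with both nonzero: contradiction. -/
def TcnStatement : Prop :=
  ∀ (g : ℕ) (τ : Matrix (Fin g) (Fin g) ℂ), Siegel τ → ∀ x : Fin g → ℂ,
    ∃ c : Fin g → ZMod 2, Thc τ c x ≠ 0

/-- **Row SQM** (geometric-quadratic sequences). PROOF. All a_j <> 0 (j in N): induction with the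
pair (j, j+1), a_(j+2) a_j = lam a_(j+1)^2. First a_1 <> 0: a_1 * a' = lam a_0^2 <> 0 where
a' is the value at -1. Then a_(j+1)/a_j = lam^j a_1/a_0, hence
a_M = a_0 (a_1/a_0)^M lam^(M(M-1)/2). Statement without division; induction on M. -/
def SqmStatement : Prop :=
  ∀ (a : ℤ → ℂ) (lam : ℂ), lam ≠ 0 → a 0 ≠ 0 → (∀ j : ℤ, a (j + 1) * a (j - 1) = lam * a j ^ 2) →
    a 1 ≠ 0 ∧ ∀ M : ℕ, a M * a 0 ^ M = a 0 * a 1 ^ M * lam ^ (M * (M - 1) / 2)

/-- **Row LIN** (roots of unity on a line). PROOF. k(0) <> 0, so k <> 0 on a ball; there q = f/k is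
continuous with q^M = C, and since {q : q^M = C} is finite and the ball connected, q is constant
(`IsPreconnected.constant_of_mapsTo`, or: q is differentiable with M q^(M-1) q' = 0, q <> 0 as
C <> 0; C = 0 gives q = 0 directly); so f = (f 0/k 0) k near 0 and everywhere by the
identity theorem (`AnalyticOnNhd.eq_of_eventuallyEq`). -/
def LinStatement : Prop :=
  ∀ (f k : ℂ → ℂ) (M : ℕ) (C : ℂ), 0 < M → Differentiable ℂ f → Differentiable ℂ k → k 0 ≠ 0 →
    (∀ t : ℂ, k t ≠ 0 → f t ^ M = C * k t ^ M) → ∀ t : ℂ, f t = f 0 / k 0 * k t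

/-- **Row KMO** (step (7), first half; uses PRD, TPE, TLD, TNV, TCN, SQM, LIN). PROOF. theta = ths tau 0.
PRD with s = 0: theta(u+w) theta(u-w) = sum_c Theta_c(u) Theta_c(w) = lam sum_c Theta_c(u) Theta_c(0)
 = lam theta(u)^2 for all u. lam <> 0, otherwise all Theta_c(w) = 0 against TCN. For theta(u) <> 0:
SQM for a_j = theta(u + j w): a_M a_0^M = a_0 a_1^M lam^(M(M-1)/2), and
a_M = theta(u + p + tau q) = exp(-pi i q.tau q - 2 pi i q.u) a_0 (TPE (iii) at u + p, TPE (ii) with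
s = 0; exp(-2 pi i q.p) = 1). Hence h(u) := theta(u+w) exp(2 pi i q.u/M) satisfies
h(u)^M = C theta(u)^M, C = exp(-pi i q.tau q)/lam^(M(M-1)/2), whenever theta(u) <> 0. Fix u0 with
theta(u0) <> 0 (TNV), and u1 arbitrary; on the line u0 + t(u1 - u0) use LIN (h restricted to a line
is entire: TLD times exp of an affine function); t = 1 gives h(u1) = zeta theta(u1),
zeta = h(u0)/theta(u0) <> 0 by SQM (a_1 <> 0). -/
def KmoStatement : Prop :=
  ∀ (g : ℕ) (τ : Matrix (Fin g) (Fin g) ℂ), Siegel τ → ∀ (w : Fin g → ℂ) (lam : ℂ) (M : ℕ)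
    (p q : Fin g → ℤ), 0 < M →
    (∀ c, Thc τ c w = lam * Thc τ c 0) →
    (∀ i, (M : ℂ) * w i = (p i : ℂ) + ∑ j, τ i j * (q j : ℂ)) →
    ∃ zeta : ℂ, zeta ≠ 0 ∧ ∀ u : Fin g → ℂ,
      ths τ 0 (fun i => u i + w i)
        * Complex.exp (2 * Real.pi * Complex.I * (∑ i, (q i : ℂ) * u i) / (M : ℂ))
        = zeta * ths τ 0 u

/-- **Row KLA** (step (7), second half; uses KMO, TPE, TNV). PROOF. KMO. Fix u0 with
theta(u0) <> 0. (i) u = u0 + e_i (unit vector): theta unchanged (TPE (ii), s = 0), so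
exp(2 pi i q_i/M) = 1, so M | q_i (`Complex.exp_eq_one_iff`), q = M v. (ii) u = u0 + tau e_i:
TPE (iii) with p = e_i at u0 + w and at u0 gives
exp(-2 pi i w_i) exp(2 pi i v.(tau e_i)) = 1, so w_i - sum_j tau_ij v_j is an integer
(tau symmetric). Hence w = p' + tau v. -/
def KlaStatement : Prop :=
  ∀ (g : ℕ) (τ : Matrix (Fin g) (Fin g) ℂ), Siegel τ → ∀ (w : Fin g → ℂ) (lam : ℂ) (M : ℕ)
    (p q : Fin g → ℤ), 0 < M →
    (∀ c, Thc τ c w = lam * Thc τ c 0) →
    (∀ i, (M : ℂ) * w i = (p i : ℂ) + ∑ j, τ i j * (q j : ℂ)) →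
    ∃ p' q' : Fin g → ℤ, ∀ i, w i = (p' i : ℂ) + ∑ j, τ i j * (q' j : ℂ)

/-- **Row TOU** (output of block T; uses RRE, INV, TCP, TCN, KLA): the conjunction. -/
def TouStatement : Prop :=
  ∀ (g : ℕ) (τ : Matrix (Fin g) (Fin g) ℂ), Siegel τ →
    (∀ (a b : Fin g → ZMod 2) (x y : Fin g → ℂ),
      Vab τ a b x * Vab τ a b y = ∑ c : Fin g → ZMod 2,
        (sgn b (a + c) : ℂ) * (Thc τ (a + c) (fun i => x i + y i) * Thc τ c (fun i => x i - y i))) ∧
    (∀ (a d : Fin g → ZMod 2) (x y : Fin g → ℂ),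
      ∑ b : Fin g → ZMod 2, (sgn b (a + d) : ℂ) * (Vab τ a b x * Vab τ a b y)
        = (2 : ℂ) ^ g * (Thc τ (a + d) (fun i => x i + y i) * Thc τ d (fun i => x i - y i))) ∧
    (∀ (c : Fin g → ZMod 2) (x : Fin g → ℂ), Thc τ c (fun i => -x i) = Thc τ c x) ∧
    (∀ (c : Fin g → ZMod 2) (x : Fin g → ℂ) (p q : Fin g → ℤ),
      Thc τ c (fun i => x i + ((p i : ℂ) + ∑ j, τ i j * (q j : ℂ)))
      = Complex.exp (-(2 * Real.pi * Complex.I * ∑ i, ∑ j, (q i : ℂ) * τ i j * (q j : ℂ))
          - 4 * Real.pi * Complex.I * ∑ i, (q i : ℂ) * x i) * Thc τ c x) ∧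
    (∀ x : Fin g → ℂ, ∃ c : Fin g → ZMod 2, Thc τ c x ≠ 0) ∧
    (∀ (w : Fin g → ℂ) (lam : ℂ) (M : ℕ) (p q : Fin g → ℤ), 0 < M →
      (∀ c, Thc τ c w = lam * Thc τ c 0) →
      (∀ i, (M : ℂ) * w i = (p i : ℂ) + ∑ j, τ i j * (q j : ℂ)) →
      ∃ p' q' : Fin g → ℤ, ∀ i, w i = (p' i : ℂ) + ∑ j, τ i j * (q' j : ℂ))

end Pool.Agent.THS
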