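import Pool.Agent.THS.StmtsG

/-!
THS, final block: the theorem and its assembly.
-/

namespace Pool.Agent.THS

open scoped BigOperators

/-- `log N(v)` for a finite place `v` of a number field (`N(v)` = number of elements of the residue
field). -/
noncomputable def lN {K : Type} [Field K] [NumberField K] (v : NumberField.FinitePlace K) : ℝ :=
  Real.log (Ideal.absNorm v.maximalIdeal.asIdeal)

/-- `w` is a point of the lattice `Z^g + tau Z^g`. -/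
def InLat {g : ℕ} (τ : Matrix (Fin g) (Fin g) ℂ) (w : Fin g → ℂ) : Prop :=
  ∃ p q : Fin g → ℤ, ∀ i, w i = (p i : ℂ) + ∑ j, τ i j * (q j : ℂ)

/-- **ALG** (OUTPUT of the algebra blocks A and B). -/
def AlgStatement : Prop :=
  ∀ (g d : ℕ) (σ C : ℝ), 0 ≤ σ → 0 ≤ C → ∃ (B : ℕ) (S0 : ℝ),
    ∀ (K : Type) [Field K] [NumberField K], Module.finrank ℚ K ≤ d →
    ∀ (N : ℕ) (α β : K) (T : ℤ → (Fin g → ZMod 2) → K)
      (x : ℤ → (Fin g → ZMod 2) × (Fin g → ZMod 2) → K), TSeq K g N α β T x →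
    ∀ S : Finset (NumberField.FinitePlace K), (∀ v ∈ S, v 2 = 1) →
    (∀ v ∈ S, ∀ k, PC v.val (T k) (T 0)) →
    Real.log (Height.mulHeight (T 0)) ≤ σ * ∑ v ∈ S, lN v + C →
    ∑ v ∈ S, lN v ≤ S0 ∨
      ∃ M : ℕ, 1 ≤ M ∧ M ≤ B ∧ ∃ r : K, ∀ c, T M c = r * T 0 c

/-- **The theorem.** -/
def ThsStatement : Prop :=
  ∀ (g d c : ℕ) (σ : ℝ), 0 < c → ∃ B : ℕ,
    ∀ (K : Type) [Field K] [NumberField K], Module.finrank ℚ K ≤ d →
    ∀ (φ : K →+* ℂ) (τ : Matrix (Fin g) (Fin g) ℂ), Siegel τ →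
    ∀ z : Fin g → ℂ, (∃ N : ℕ, 0 < N ∧ InLat τ (fun i => (N : ℂ) * z i)) →
    ∀ x : ℤ → (Fin g → ZMod 2) × (Fin g → ZMod 2) → K, (∀ k, x k ≠ 0) →
    (∀ k, ∃ μ : ℂ, ∀ ab, φ (x k ab) = μ * Vab τ ab.1 ab.2 (fun i => (k : ℂ) * z i)) →
    ∀ S : Finset (NumberField.FinitePlace K), (∀ v ∈ S, v 2 = 1) →
    (∀ v ∈ S, ∀ k, PC v.val (x (c * k)) (x 0)) →
    Real.log (Height.mulHeight (x 0)) ≤ σ * ∑ v ∈ S, lN v →
    ∃ M : ℕ, 1 ≤ M ∧ M ≤ B ∧ InLat τ (fun i => (M : ℂ) * z i)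

/-- **Row ASM** (assembly; uses ALG, THD, RED, HTZ, PIG, PRP). PROOF. Fix g, d, c, σ; σ' = max σ 0,
C = g d log 2; ALG (g, d, σ', C) gives B1, S0; PIG (g, d, exp(σ' S0)) gives B2; B = c * max B1 B2.
Let K, φ, τ, z, x, S be given, N z = p + tau q. Put z' = c z, x' k = x (c k): N z' = c p + tau (c q);
φ (x' k ab) = μ Vab(k z') because (c k) z = k z'; x' 0 = x 0. THD gives α, β, T with TSeq and the last
claim. Every v in S is nonarchimedean (`v.add_le`, the instance `NonarchimedeanHomClass`),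
v 2 = 1, so RED gives PC v (T k) (T 0) for all k. HTZ: H(T 0)² ≤ 2^(g [K:Q]) H(x 0)², so
log H(T 0) ≤ log H(x 0) + (g d/2) log 2 ≤ σ' Σ lN v + C (Σ lN v ≥ 0: absNorm ≥ 1; heights
are ≥ 1, `Height.one_le_mulHeight`). ALG: either M, r with T M c = r T 0 c, 1 ≤ M ≤ B1; or
Σ lN v ≤ S0, then H(x 0) ≤ exp(σ' S0) and PIG gives i < j ≤ B2, x' j = l x' i, PRP with M = j - i ≥ 1
(cast of the natural subtraction) gives r. In both cases the last claim of THD: M z' in the lattice,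
(c M) z = M z', 1 ≤ c M ≤ B. -/
def AsmStatement : Prop := ThsStatement

end Pool.Agent.THS
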